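import Mathlib
import Pool.Agent.H95.VG.Targets4

/-!
# MP_6803f2_an: existence of finite atlases (`T_ATL`)
-/

open MeasureTheory Set Filter Topology
open scoped ENNReal NNReal ContDiff Manifold ComplexConjugate

namespace Pool.Agent.H33.VG

open Pool.Agent.H95.VG

/-- the affine map `y ↦ (y - c) / r` -/
noncomputable def aff {n : ℕ} (c : V n) (r : ℝ) (hr : 0 < r) : V n ≃ₜ V n where
  toFun y := ((r : ℂ)⁻¹) • (y - c)
  invFun y := (r : ℂ) • y + c
  left_inv y := by
    have : (r : ℂ) ≠ 0 := by exact_mod_cast hr.ne'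
    simp only [smul_smul, mul_inv_cancel₀ this, one_smul, sub_add_cancel]
  right_inv y := by
    have : (r : ℂ) ≠ 0 := by exact_mod_cast hr.ne'
    simp only [add_sub_cancel_right, smul_smul, inv_mul_cancel₀ this, one_smul]
  continuous_toFun := by fun_prop
  continuous_invFun := by fun_prop

theorem exists_radius {n : ℕ} {U : Set (V n)} (hU : IsOpen U) {c : V n} (hc : c ∈ U) :
    ∃ r : ℝ, 0 < r ∧ Metric.closedBall c (3 * r) ⊆ U := by
  obtain ⟨ε, hε, h⟩ := Metric.nhds_basis_closedBall.mem_iff.1 (hU.mem_nhds hc)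
  exact ⟨ε / 3, by positivity, by rwa [mul_div_cancel₀ _ (by norm_num : (3 : ℝ) ≠ 0)]⟩

/-- ATL -/
theorem atl : T_ATL := by
  intro n X _ _ _ _ _
  have hr : ∀ x : X, ∃ r : ℝ, 0 < r ∧
      Metric.closedBall (chartAt (Fin n → ℂ) x x) (3 * r) ⊆ (chartAt (Fin n → ℂ) x).target :=
    fun x => exists_radius (chartAt (Fin n → ℂ) x).open_target
      ((chartAt (Fin n → ℂ) x).map_source (mem_chart_source _ x))
  choose r hr0 hrb using hr
  set e : X → (V n ≃ₜ V n) := fun x => aff (chartAt (Fin n → ℂ) x x) (r x) (hr0 x) with he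
  set ψ : X → OpenPartialHomeomorph X (V n) := fun x =>
    (chartAt (Fin n → ℂ) x).trans (e x).toOpenPartialHomeomorph with hψ
  have hsrc : ∀ x, (ψ x).source = (chartAt (Fin n → ℂ) x).source := by
    intro x
    simp [hψ]
  have hval : ∀ x y, ψ x y = ((r x : ℂ)⁻¹) • (chartAt (Fin n → ℂ) x y - chartAt (Fin n → ℂ) x x) :=
    fun x y => rfl
  have hsymm : ∀ x y, (ψ x).symm y =
      (chartAt (Fin n → ℂ) x).symm ((r x : ℂ) • y + chartAt (Fin n → ℂ) x x) :=
    fun x y => rfl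
  have htgt : ∀ x, (ψ x).target =
      {y | (r x : ℂ) • y + chartAt (Fin n → ℂ) x x ∈ (chartAt (Fin n → ℂ) x).target} := by
    intro x
    ext y
    simp only [hψ, OpenPartialHomeomorph.trans_target, Homeomorph.toOpenPartialHomeomorph_target,
      univ_inter, mem_preimage, mem_ofPred_eq]
    rfl
  -- charts are differentiable
  have hd1 : ∀ x, MDifferentiableOn 𝓘(ℂ, Fin n → ℂ) 𝓘(ℂ, Fin n → ℂ) (ψ x) (ψ x).source := by
    intro x
    have h1 := (mdifferentiable_chart (I := 𝓘(ℂ, Fin n → ℂ)) x).1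
    have h2 : MDifferentiable 𝓘(ℂ, Fin n → ℂ) 𝓘(ℂ, Fin n → ℂ)
        (fun y : Fin n → ℂ => ((r x : ℂ)⁻¹) • (y - chartAt (Fin n → ℂ) x x)) := by
      apply Differentiable.mdifferentiable
      fun_prop
    rw [hsrc]
    exact h2.comp_mdifferentiableOn h1
  have hd2 : ∀ x, MDifferentiableOn 𝓘(ℂ, Fin n → ℂ) 𝓘(ℂ, Fin n → ℂ) (ψ x).symm (ψ x).target := by
    intro x
    have h1 := (mdifferentiable_chart (I := 𝓘(ℂ, Fin n → ℂ)) x).2
    have h2 : MDifferentiable 𝓘(ℂ, Fin n → ℂ) 𝓘(ℂ, Fin n → ℂ)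
        (fun y : Fin n → ℂ => (r x : ℂ) • y + chartAt (Fin n → ℂ) x x) := by
      apply Differentiable.mdifferentiable
      fun_prop
    rw [htgt]
    exact h1.comp h2.mdifferentiableOn (fun y hy => hy)
  -- the cover
  obtain ⟨t, ht⟩ := CompactSpace.elim_nhds_subcover
    (fun x : X => (ψ x).source ∩ (ψ x) ⁻¹' Metric.ball (0 : V n) 1) (by
      intro x
      have h1 : IsOpen ((ψ x).source ∩ (ψ x) ⁻¹' Metric.ball (0 : V n) 1) :=
        (ψ x).isOpen_inter_preimage Metric.isOpen_ball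
      apply h1.mem_nhds
      refine ⟨by rw [hsrc]; exact mem_chart_source _ x, ?_⟩
      rw [mem_preimage, hval, sub_self, smul_zero]
      exact Metric.mem_ball_self one_pos)
  refine ⟨t, inferInstance, ⟨fun a => ψ a.1, ?_, ?_, ?_⟩, fun a => ⟨hd1 a.1, hd2 a.1⟩⟩
  · intro a b
    rw [← mdifferentiableOn_iff_differentiableOn]
    refine (hd1 b.1).comp ((hd2 a.1).mono ?_) ?_
    · rw [OpenPartialHomeomorph.trans_source]
      exact inter_subset_left
    · intro y hy
      rw [OpenPartialHomeomorph.trans_source] at hy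
      exact hy.2
  · intro a y hy
    rw [htgt]
    apply hrb a.1
    rw [mem_closedBall_zero_iff] at hy
    rw [Metric.mem_closedBall, dist_eq_norm, add_sub_cancel_right, norm_smul, Complex.norm_real,
      Real.norm_eq_abs, abs_of_pos (hr0 a.1)]
    have := hr0 a.1
    nlinarith
  · intro x
    have hx : x ∈ ⋃ x ∈ t, ((ψ x).source ∩ (ψ x) ⁻¹' Metric.ball (0 : V n) 1) := by
      rw [ht]; trivial
    simp only [mem_iUnion] at hx
    obtain ⟨a, ha, h1, h2⟩ := hx
    exact ⟨⟨a, ha⟩, h1, h2⟩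

end Pool.Agent.H33.VG
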