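import Mathlib
import Pool.Agent.H95.VG.Targets1

/-!
# MP_6803f2_an: one integration by parts (`T_BY1`)
-/

open MeasureTheory Set Filter Topology
open scoped ENNReal NNReal ContDiff ComplexConjugate

namespace Pool.Agent.H33.VG

open Pool.Agent.H95.VG

section

variable {n : ℕ}

theorem dzb_congr {g g' : V n → ℂ} {z : V n} (h : g =ᶠ[𝓝 z] g') (v : V n) :
    dzb g z v = dzb g' z v := by
  unfold dzb
  rw [h.fderiv_eq]

theorem dr_congr {g g' : V n → ℝ} {z : V n} (h : g =ᶠ[𝓝 z] g') (v : V n) :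
    dr g z v = dr g' z v := by
  unfold dr
  rw [h.fderiv_eq]

theorem norm_ek (k : Fin n) : ‖(ek k : V n)‖ = 1 := by
  unfold ek
  rw [Pi.norm_single, norm_one]

theorem norm_dr_le (g : V n → ℝ) (z v : V n) : ‖dr g z v‖ ≤ ‖fderiv ℝ g z‖ * ‖v‖ := by
  unfold dr
  rw [norm_div, Complex.norm_ofNat, div_le_iff₀ (by norm_num)]
  refine (norm_sub_le _ _).trans ?_
  rw [norm_mul, Complex.norm_I, one_mul, Complex.norm_real, Complex.norm_real]
  have h1 := (fderiv ℝ g z).le_opNorm v
  have h2 := (fderiv ℝ g z).le_opNorm (Complex.I • v)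
  rw [norm_smul, Complex.norm_I, one_mul] at h2
  linarith

theorem contDiff_dr {φ : V n → ℝ} (hφ : ContDiff ℝ 2 φ) (v : V n) :
    ContDiff ℝ 1 (fun z => dr φ z v) := by
  unfold dr
  have h1 : ∀ w : V n, ContDiff ℝ 1 (fun z => fderiv ℝ φ z w) := fun w =>
    (hφ.fderiv_right (m := 1) (by norm_num)).clm_apply contDiff_const
  have h2 : ∀ w : V n, ContDiff ℝ 1 (fun z => ((fderiv ℝ φ z w : ℝ) : ℂ)) := fun w =>
    Complex.ofRealCLM.contDiff.comp (h1 w)
  exact ((h2 v).sub (contDiff_const.mul (h2 _))).div_const 2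

theorem dr_eq_zero {φ : V n → ℝ} {z : V n} (h : z ∉ tsupport (fderiv ℝ φ)) (v : V n) :
    dr φ z v = 0 := by
  have h1 : fderiv ℝ φ z = 0 := by
    by_contra hne
    exact h (subset_tsupport _ hne)
  unfold dr
  rw [h1]
  simp

theorem dzb_dr_eq_zero {φ : V n → ℝ} {z : V n} (h : z ∉ tsupport (fderiv ℝ φ)) (v w : V n) :
    dzb (fun x => dr φ x v) z w = 0 := by
  have h1 : (fun x => dr φ x v) =ᶠ[𝓝 z] fun _ => 0 := by
    filter_upwards [(isClosed_tsupport (fderiv ℝ φ)).isOpen_compl.mem_nhds h] with x hx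
    exact dr_eq_zero hx v
  rw [dzb_congr h1]
  unfold dzb
  simp

theorem continuousOn_dzb {G : V n → ℂ} {X : V n → V n} {O : Set (V n)} (hO : IsOpen O)
    (hG : ContDiffOn ℝ 1 G O) (hX : ContinuousOn X O) :
    ContinuousOn (fun z => dzb G z (X z)) O := by
  have h1 : ContinuousOn (fderiv ℝ G) O := hG.continuousOn_fderiv_of_isOpen hO le_rfl
  unfold dzb
  have h2 : ContinuousOn (fun z => fderiv ℝ G z (X z)) O := h1.clm_apply hX
  have h3 : ContinuousOn (fun z => fderiv ℝ G z (Complex.I • X z)) O :=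
    h1.clm_apply (hX.const_smul Complex.I)
  exact (h2.add (continuousOn_const.mul h3)).div_const 2

theorem continuousOn_dr {G : V n → ℝ} {X : V n → V n} {O : Set (V n)} (hO : IsOpen O)
    (hG : ContDiffOn ℝ 1 G O) (hX : ContinuousOn X O) :
    ContinuousOn (fun z => dr G z (X z)) O := by
  have h1 : ContinuousOn (fderiv ℝ G) O := hG.continuousOn_fderiv_of_isOpen hO le_rfl
  unfold dr
  have h2 : ContinuousOn (fun z => ((fderiv ℝ G z (X z) : ℝ) : ℂ)) O :=
    Complex.continuous_ofReal.comp_continuousOn (h1.clm_apply hX)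
  have h3 : ContinuousOn (fun z => ((fderiv ℝ G z (Complex.I • X z) : ℝ) : ℂ)) O :=
    Complex.continuous_ofReal.comp_continuousOn (h1.clm_apply (hX.const_smul Complex.I))
  exact (h2.sub (continuousOn_const.mul h3)).div_const 2

/-- a function on `Oa` dominated by the sum of minors, with support over a compact set, is
integrable -/
theorem integrableOn_of_le {X : Type} [TopologicalSpace X] {ι : Type} {A : Atl n X ι}
    {f : V n → X} {I : Set (V n)} (hs : Sing A f I) {a : ι} (hO : IsOpen (Oa A f I a))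
    {K : Set (V n)} (hKD : K ⊆ Dp n) (hK : IsCompact K) {R : ℝ} (hR : R < 2) {E : Type*}
    [NormedAddCommGroup E] {h : V n → E} (hcont : ContinuousOn h (Oa A f I a)) {C : ℝ}
    (hb : ∀ z ∈ Oa A f I a, ‖h z‖ ≤ C * Dm (FF A f a) z)
    (h0 : ∀ z ∈ Oa A f I a, h z ≠ 0 → z ∈ K ∩ Cb A f a R) : IntegrableOn h (Oa A f I a) := by
  refine ⟨hcont.aestronglyMeasurable hO.measurableSet, ?_⟩
  set S : Set (V n) := {z | z ∈ Oa A f I a ∧ h z ≠ 0} with hS
  have hSo : IsOpen S := by
    have h1 : S = Oa A f I a ∩ h ⁻¹' {0}ᶜ := by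
      ext z; simp [hS]
    rw [h1]
    exact hcont.isOpen_inter_preimage hO isOpen_compl_singleton
  have hSsub : S ⊆ (K \ I) ∩ Cb A f a 2 := by
    rintro z ⟨hz, hz'⟩
    obtain ⟨h1, h2⟩ := h0 z hz hz'
    refine ⟨⟨h1, hz.1.2⟩, h2.1, ?_⟩
    exact Metric.closedBall_subset_closedBall hR.le h2.2
  have h1 : ∫⁻ z in Oa A f I a, ‖h z‖ₑ ≤ ∫⁻ z in S, ‖h z‖ₑ := by
    calc ∫⁻ z in Oa A f I a, ‖h z‖ₑ
        = ∫⁻ z in Oa A f I a, S.indicator (fun z => ‖h z‖ₑ) z := by
          apply setLIntegral_congr_fun hO.measurableSet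
          intro z hz
          by_cases hz' : h z = 0
          · have : z ∉ S := fun hc => hc.2 hz'
            simp only [indicator_of_notMem this, hz', enorm_zero]
          · have : z ∈ S := ⟨hz, hz'⟩
            simp only [indicator_of_mem this]
      _ ≤ ∫⁻ z, S.indicator (fun z => ‖h z‖ₑ) z := setLIntegral_le_lintegral _ _
      _ = ∫⁻ z in S, ‖h z‖ₑ := lintegral_indicator hSo.measurableSet _
  have h2 : ∫⁻ z in S, ‖h z‖ₑ ≤ ∫⁻ z in S, ENNReal.ofReal |C| * ENNReal.ofReal (Dm (FF A f a) z) := by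
    apply setLIntegral_mono_ae' hSo.measurableSet
    filter_upwards with z hz
    rw [← ENNReal.ofReal_mul (abs_nonneg C), ← ofReal_norm]
    apply ENNReal.ofReal_le_ofReal
    have h3 : 0 ≤ Dm (FF A f a) z := by
      unfold Dm
      exact Finset.sum_nonneg (fun _ _ => sq_nonneg _)
    exact (hb z hz.1).trans (mul_le_mul_of_nonneg_right (le_abs_self C) h3)
  have h3 : ∫⁻ z in S, ENNReal.ofReal |C| * ENNReal.ofReal (Dm (FF A f a) z) ≤
      ENNReal.ofReal |C| * ∫⁻ z in (K \ I) ∩ Cb A f a 2, ENNReal.ofReal (Dm (FF A f a) z) := by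
    rw [lintegral_const_mul' _ _ ENNReal.ofReal_ne_top]
    gcongr
  have h4 := hs.s1 K hKD hK a
  exact (h1.trans (h2.trans h3)).trans_lt (ENNReal.mul_lt_top ENNReal.ofReal_lt_top h4)

end

/-- BY1 -/
theorem by1 (hSMO : T_SMO) (hLIN : T_LIN) (hPRD : T_PRD) (hLVM : T_LVM) (hCHR : T_CHR)
    (hPIO : T_PIO) (hDOM : T_DOM) (hOAO : T_OAO) (hSFO : T_SFO) : T_BY1 := by
  intro n X _ _ ι A f I hs a k φ q σ R hR hφ hcs hts hσ hq hqR hqC
  obtain ⟨C, hC⟩ := hqC
  obtain ⟨hO, hF, -, -, -, -⟩ := hOAO n X ι A f I hs a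
  set O := Oa A f I a with hOdef
  set F := FF A f a with hFdef
  set Xf : V n → V n := cf F k with hXf
  set K := tsupport (fderiv ℝ φ) with hKdef
  have hK : IsCompact K := hcs
  have hFC : ContDiffOn ℝ 1 F O := ((hSMO n (V n) O F hO hF).2.1).of_le (by norm_num)
  have hFd : ∀ z ∈ O, DifferentiableAt ℂ F z := fun z hz => (hF z hz).differentiableAt (hO.mem_nhds hz)
  have hXd : DifferentiableOn ℂ Xf O := (hPIO n O F hO hF k).1
  have hXc : ContinuousOn Xf O := hXd.continuousOn
  -- bounds on the fields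
  have hX2 : ∀ z ∈ O, ∀ i, ‖Xf z i‖ ^ 2 ≤ Dm F z := fun z hz i => (hDOM n F z (hFd z hz)).2.2.2.2.1 k i
  have hdet2 : ∀ z ∈ O, ‖(jac F z).det‖ ^ 2 ≤ Dm F z := fun z hz => (hDOM n F z (hFd z hz)).2.1
  have hXX : ∀ z ∈ O, ∀ i j, ‖Xf z i‖ * ‖Xf z j‖ ≤ Dm F z := by
    intro z hz i j
    nlinarith [hX2 z hz i, hX2 z hz j, sq_nonneg (‖Xf z i‖ - ‖Xf z j‖)]
  have hXdet : ∀ z ∈ O, ∀ i, ‖Xf z i‖ * ‖(jac F z).det‖ ≤ Dm F z := by
    intro z hz i
    nlinarith [hX2 z hz i, hdet2 z hz, sq_nonneg (‖Xf z i‖ - ‖(jac F z).det‖)]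
  -- the functions of `φ`
  set d : Fin n → V n → ℂ := fun i z => dr φ z (ek i) with hd
  have hdC : ∀ i, ContDiff ℝ 1 (d i) := fun i => contDiff_dr hφ (ek i)
  have hd0 : ∀ i z, z ∉ K → d i z = 0 := fun i z hz => dr_eq_zero hz _
  set c : Fin n → Fin n → V n → ℂ := fun i j z => dzb (d i) z (ek j) with hc
  have hc0 : ∀ i j z, z ∉ K → c i j z = 0 := fun i j z hz => dzb_dr_eq_zero hz _ _
  have hcC : ∀ i j, Continuous (c i j) := by
    intro i j
    have := continuousOn_dzb (G := d i) (X := fun _ => ek j) isOpen_univ (hdC i).contDiffOn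
      continuousOn_const
    rwa [continuousOn_univ] at this
  obtain ⟨M1, hM1⟩ : ∃ M1 : ℝ, ∀ i z, ‖d i z‖ ≤ M1 := by
    have h1 : ∀ i, ∃ M : ℝ, ∀ z, ‖d i z‖ ≤ M := by
      intro i
      obtain ⟨M, hM⟩ := hK.exists_bound_of_continuousOn (hdC i).continuous.continuousOn
      refine ⟨max M 0, fun z => ?_⟩
      by_cases hz : z ∈ K
      · exact (hM z hz).trans (le_max_left _ _)
      · rw [hd0 i z hz, norm_zero]; exact le_max_right _ _
    choose M hM using h1
    refine ⟨∑ i, |M i|, fun i z => (hM i z).trans ((le_abs_self _).trans ?_)⟩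
    exact Finset.single_le_sum (f := fun i => |M i|) (fun i _ => abs_nonneg _) (Finset.mem_univ i)
  obtain ⟨M2, hM2⟩ : ∃ M2 : ℝ, ∀ i j z, ‖c i j z‖ ≤ M2 := by
    have h1 : ∀ i j, ∃ M : ℝ, ∀ z, ‖c i j z‖ ≤ M := by
      intro i j
      obtain ⟨M, hM⟩ := hK.exists_bound_of_continuousOn (hcC i j).continuousOn
      refine ⟨max M 0, fun z => ?_⟩
      by_cases hz : z ∈ K
      · exact (hM z hz).trans (le_max_left _ _)
      · rw [hc0 i j z hz, norm_zero]; exact le_max_right _ _
    choose M hM using h1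
    refine ⟨∑ i, ∑ j, |M i j|, fun i j z => (hM i j z).trans ((le_abs_self _).trans ?_)⟩
    exact (Finset.single_le_sum (f := fun j => |M i j|) (fun j _ => abs_nonneg _)
      (Finset.mem_univ j)).trans (Finset.single_le_sum (f := fun i => ∑ j, |M i j|)
      (fun i _ => Finset.sum_nonneg (fun j _ => abs_nonneg _)) (Finset.mem_univ i))
  -- the function `Q z = q (F z) (σ z)`
  set Q : V n → ℝ := fun z => q (F z) (σ z) with hQ
  have hQev : ∀ z ∈ O, Q =ᶠ[𝓝 z] fun x => q (F x) (σ z) := by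
    intro z hz
    filter_upwards [hσ z hz] with x hx
    simp only [hQ, hx]
  have hqd : ∀ s y, DifferentiableAt ℝ (fun y => q y s) y := fun s y =>
    (hq s).differentiable (by norm_num) y
  have hQC : ContDiffOn ℝ 1 Q O := by
    intro z hz
    have h1 : ContDiffAt ℝ 1 (fun x => q (F x) (σ z)) z :=
      (hq (σ z)).contDiffAt.comp z (hFC.contDiffAt (hO.mem_nhds hz))
    exact (h1.congr_of_eventuallyEq (hQev z hz)).contDiffWithinAt
  have hdrQ : ∀ z ∈ O, dr Q z (Xf z) = (jac F z).det * dr (fun y => q y (σ z)) (F z) (ek k) := by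
    intro z hz
    rw [dr_congr (hQev z hz)]
    exact (hCHR n O F hO hF z hz k).2.2.1 _ (hqd _ _)
  have hdrq : ∀ y s, ‖dr (fun y => q y s) y (ek k)‖ ≤ C := by
    intro y s
    refine (norm_dr_le _ _ _).trans ?_
    rw [norm_ek, mul_one]
    exact (hC y s).2
  have hQ0 : ∀ z ∈ O, Q z ≠ 0 → z ∈ Cb A f a R := by
    intro z hz hne
    exact ⟨hz.2.1, hqR _ _ hne⟩
  -- the Levi form
  have hlev : ∀ z, ∀ v : V n, ((lev φ z v : ℝ) : ℂ) = ∑ i, ∑ j, v i * conj (v j) * c i j z :=
    fun z v => ((hLVM n z v).2 φ hφ.contDiffAt).2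
  have hlev' : ∀ z, ∀ v : V n, ((lev φ z v : ℝ) : ℂ) = ∑ i, v i * dzb (d i) z v := by
    intro z v
    rw [hlev z v]
    apply Finset.sum_congr rfl
    intro i _
    rw [((hLIN n z).1 (d i) 0 v 1).2.2.2.2.2.1, Finset.mul_sum]
    apply Finset.sum_congr rfl
    intro j _
    simp only [hc]
    ring
  have hdr' : ∀ z, ∀ v : V n, dr φ z v = ∑ i, v i * d i z := fun z v =>
    ((hLIN n z).2.2.2.2 φ v).1
  have hQd : ∀ z ∈ O, DifferentiableAt ℝ Q z := fun z hz =>
    (hQC.contDiffAt (hO.mem_nhds hz)).differentiableAt (by norm_num)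
  -- outside `Cb R`
  have hdrq0 : ∀ y s, y ∉ Metric.closedBall (0 : V n) R → dr (fun y => q y s) y (ek k) = 0 := by
    intro y s hy
    have h1 : (fun y => q y s) =ᶠ[𝓝 y] fun _ => 0 := by
      filter_upwards [Metric.isClosed_closedBall.isOpen_compl.mem_nhds hy] with x hx
      by_contra hne
      exact hx (hqR x s hne)
    rw [dr_congr h1]
    unfold dr
    simp
  have hout : ∀ z ∈ O, z ∉ Cb A f a R → Q z = 0 ∧ dr Q z (Xf z) = 0 := by
    intro z hz hz'
    refine ⟨by_contra fun h => hz' (hQ0 z hz h), ?_⟩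
    rw [hdrQ z hz, hdrq0 (F z) (σ z) (fun h => hz' ⟨hz.2.1, h⟩), mul_zero]
  have hC0 : ∀ z : V n, 0 ≤ C := fun z => (abs_nonneg _).trans (hC z 0).1
  have hC00 : 0 ≤ C := hC0 0
  have hDm0 : ∀ z, 0 ≤ Dm F z := by
    intro z
    unfold Dm
    exact Finset.sum_nonneg (fun _ _ => sq_nonneg _)
  have hQb : ∀ z, |Q z| ≤ C := fun z => (hC _ _).1
  -- the functions `G i`
  set G : Fin n → V n → ℂ := fun i z => (Q z : ℂ) * d i z with hG
  have hGC : ∀ i, ContDiffOn ℝ 1 (G i) O := fun i =>
    (Complex.ofRealCLM.contDiff.comp_contDiffOn hQC).mul (hdC i).contDiffOn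
  have hdzbG : ∀ z ∈ O, ∀ i, ∀ v : V n,
      dzb (G i) z v = Q z * dzb (d i) z v + d i z * conj (dr Q z v) := by
    intro z hz i v
    have h1 : DifferentiableAt ℝ (fun x => (Q x : ℂ)) z :=
      Complex.ofRealCLM.differentiableAt.comp z (hQd z hz)
    have h2 := ((hPRD n z v).1 (fun x => (Q x : ℂ)) (d i) h1
      ((hdC i).differentiable (by norm_num) z)).2
    rw [((hLIN n z).2.2.2.1 Q v (hQd z hz)).2] at h2
    exact h2
  have hdzbd : ∀ z, ∀ i, ∀ v : V n, dzb (d i) z v = ∑ j, conj (v j) * c i j z := by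
    intro z i v
    exact ((hLIN n z).1 (d i) 0 v 1).2.2.2.2.2.1
  have hterm : ∀ z ∈ O, ∀ i, Xf z i * dzb (G i) z (Xf z) =
      Q z * (Xf z i * dzb (d i) z (Xf z)) + (Xf z i * d i z) * conj (dr Q z (Xf z)) := by
    intro z hz i
    rw [hdzbG z hz i]; ring
  -- bounds
  have b1 : ∀ z ∈ O, ∀ i, ‖Xf z i * dzb (d i) z (Xf z)‖ ≤ n * M2 * Dm F z := by
    intro z hz i
    rw [hdzbd, Finset.mul_sum]
    refine (norm_sum_le _ _).trans ?_
    have h1 : ∀ j ∈ Finset.univ, ‖Xf z i * (conj (Xf z j) * c i j z)‖ ≤ M2 * Dm F z := by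
      intro j _
      rw [norm_mul, norm_mul, RCLike.norm_conj, ← mul_assoc, mul_comm]
      exact mul_le_mul (hM2 i j z) (hXX z hz i j) (by positivity)
        ((norm_nonneg _).trans (hM2 i j z))
    refine (Finset.sum_le_sum h1).trans ?_
    rw [Finset.sum_const, Finset.card_univ, Fintype.card_fin, nsmul_eq_mul]
    linarith
  have b2 : ∀ z ∈ O, ∀ i, ‖(Xf z i * d i z) * conj (dr Q z (Xf z))‖ ≤ M1 * C * Dm F z := by
    intro z hz i
    rw [hdrQ z hz, norm_mul, norm_mul, RCLike.norm_conj, norm_mul]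
    have h1 := hXdet z hz i
    have h2 := hM1 i z
    have h3 := hdrq (F z) (σ z)
    have e1 : ‖Xf z i‖ * ‖d i z‖ * (‖(jac F z).det‖ * ‖dr (fun y => q y (σ z)) (F z) (ek k)‖) =
        (‖d i z‖ * ‖dr (fun y => q y (σ z)) (F z) (ek k)‖) * (‖Xf z i‖ * ‖(jac F z).det‖) := by ring
    rw [e1]
    have h4 : 0 ≤ M1 := (norm_nonneg _).trans h2
    exact mul_le_mul (mul_le_mul h2 h3 (norm_nonneg _) h4) h1 (by positivity) (by positivity)
  have hXi : ∀ i, ContinuousOn (fun z => Xf z i) O := fun i =>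
    (continuous_apply i).comp_continuousOn hXc
  have hint1 : ∀ i, IntegrableOn (fun z => Xf z i * dzb (G i) z (Xf z)) O := by
    intro i
    apply integrableOn_of_le hs hO hts hK hR (C := C * (n * M2) + M1 * C)
    · exact (hXi i).mul (continuousOn_dzb hO (hGC i) hXc)
    · intro z hz
      rw [hterm z hz i]
      refine (norm_add_le _ _).trans ?_
      have h1 : ‖(Q z : ℂ) * (Xf z i * dzb (d i) z (Xf z))‖ ≤ C * (n * M2 * Dm F z) := by
        rw [norm_mul, Complex.norm_real, Real.norm_eq_abs]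
        exact mul_le_mul (hQb z) (b1 z hz i) (norm_nonneg _) hC00
      have h2 := b2 z hz i
      have e1 : (C * (n * M2) + M1 * C) * Dm F z = C * (n * M2 * Dm F z) + M1 * C * Dm F z := by ring
      rw [e1]
      exact add_le_add h1 h2
    · intro z hz hne
      rw [hterm z hz i] at hne
      constructor
      · by_contra hzK
        apply hne
        have h1 : dzb (d i) z (Xf z) = 0 := dzb_dr_eq_zero hzK _ _
        rw [h1, hd0 i z hzK]
        simp
      · by_contra hzR
        apply hne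
        obtain ⟨h1, h2⟩ := hout z hz hzR
        rw [h1, h2]
        simp
  have hlevc : ContinuousOn (fun z => lev φ z (Xf z)) O := by
    have h1 : ContinuousOn (fun z => (∑ i, ∑ j, Xf z i * conj (Xf z j) * c i j z).re) O := by
      apply Complex.continuous_re.comp_continuousOn
      apply continuousOn_finsetSum
      intro i _
      apply continuousOn_finsetSum
      intro j _
      exact ((hXi i).mul (Complex.continuous_conj.comp_continuousOn (hXi j))).mul
        (hcC i j).continuousOn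
    refine h1.congr ?_
    intro z hz
    simp only
    rw [← hlev z (Xf z), Complex.ofReal_re]
  have hlevb : ∀ z ∈ O, |lev φ z (Xf z)| ≤ n * (n * M2) * Dm F z := by
    intro z hz
    rw [← Real.norm_eq_abs, ← Complex.norm_real, hlev' z]
    refine (norm_sum_le _ _).trans ?_
    refine (Finset.sum_le_sum (fun i _ => b1 z hz i)).trans ?_
    rw [Finset.sum_const, Finset.card_univ, Fintype.card_fin, nsmul_eq_mul]
    apply le_of_eq
    ring
  have hint2 : IntegrableOn (fun z => q (F z) (σ z) * lev φ z (cf F k z)) O := by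
    apply integrableOn_of_le hs hO hts hK hR (C := C * (n * (n * M2)))
    · exact hQC.continuousOn.mul hlevc
    · intro z hz
      rw [norm_mul, Real.norm_eq_abs, Real.norm_eq_abs, mul_assoc]
      exact mul_le_mul (hQb z) (hlevb z hz) (abs_nonneg _) hC00
    · intro z hz hne
      constructor
      · by_contra hzK
        apply hne
        have h1 : ((lev φ z (Xf z) : ℝ) : ℂ) = 0 := by
          rw [hlev' z]
          apply Finset.sum_eq_zero
          intro i _
          have h2 : dzb (d i) z (Xf z) = 0 := dzb_dr_eq_zero hzK _ _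
          rw [h2, mul_zero]
        have h2 : lev φ z (Xf z) = 0 := by exact_mod_cast h1
        simp only [hXf] at h2
        rw [h2, mul_zero]
      · by_contra hzR
        apply hne
        have h1 := (hout z hz hzR).1
        simp only [hQ] at h1
        rw [h1, zero_mul]
  have hint3 : IntegrableOn (fun z => (dr φ z (Xf z) * conj (dr Q z (Xf z))).re) O := by
    apply integrableOn_of_le hs hO hts hK hR (C := n * (M1 * C))
    · apply Complex.continuous_re.comp_continuousOn
      have h1 : ContinuousOn (fun z => dr φ z (Xf z)) O :=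
        continuousOn_dr hO (hφ.of_le (by norm_num)).contDiffOn hXc
      exact h1.mul (Complex.continuous_conj.comp_continuousOn (continuousOn_dr hO hQC hXc))
    · intro z hz
      rw [Real.norm_eq_abs]
      refine (Complex.abs_re_le_norm _).trans ?_
      rw [hdr' z (Xf z), Finset.sum_mul]
      refine (norm_sum_le _ _).trans ?_
      refine (Finset.sum_le_sum (fun i _ => b2 z hz i)).trans ?_
      rw [Finset.sum_const, Finset.card_univ, Fintype.card_fin, nsmul_eq_mul]
      apply le_of_eq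
      ring
    · intro z hz hne
      constructor
      · by_contra hzK
        apply hne
        rw [dr_eq_zero hzK]
        simp
      · by_contra hzR
        apply hne
        rw [(hout z hz hzR).2]
        simp
  have e3 : ∀ z ∈ O, (dr φ z (cf F k z) * conj ((jac F z).det *
      dr (fun y => q y (σ z)) (F z) (ek k))).re = (dr φ z (Xf z) * conj (dr Q z (Xf z))).re := by
    intro z hz
    rw [hdrQ z hz]
  have hint3' : IntegrableOn (fun z => (dr φ z (cf F k z) * conj ((jac F z).det *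
      dr (fun y => q y (σ z)) (F z) (ek k))).re) O :=
    hint3.congr_fun (fun z hz => (e3 z hz).symm) hO.measurableSet
  refine ⟨hint2, hint3', ?_⟩
  -- the identity
  have hzero : ∀ i, ∫ z in O, Xf z i * dzb (G i) z (Xf z) = 0 := by
    intro i
    have h1 := hSFO n X ι A f I hs a (fun i => Sum.inr i) k K R (G i) (fun z => Xf z i) hts hK hR
      (hGC i) (by
        intro z hz hne
        constructor
        · by_contra hzK
          apply hne
          simp only [hG, hd0 i z hzK, mul_zero]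
        · by_contra hzR
          apply hne
          simp only [hG, (hout z hz hzR).1, Complex.ofReal_zero, zero_mul])
      ⟨C * M1, by
        intro z hz
        simp only [hG]
        rw [norm_mul, Complex.norm_real, Real.norm_eq_abs]
        exact mul_le_mul (hQb z) (hM1 i z) (norm_nonneg _) hC00⟩
      (differentiableOn_pi.1 hXd i)
      (by
        have h2 : ∫⁻ z in O ∩ (K ∩ Cb A f a R), ENNReal.ofReal (‖Xf z i‖ ^ 2) ≤
            ∫⁻ z in (K \ I) ∩ Cb A f a 2, ENNReal.ofReal (Dm F z) := by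
          calc ∫⁻ z in O ∩ (K ∩ Cb A f a R), ENNReal.ofReal (‖Xf z i‖ ^ 2)
              ≤ ∫⁻ z in O ∩ (K ∩ Cb A f a R), ENNReal.ofReal (Dm F z) := by
                apply lintegral_mono_ae
                apply ae_restrict_of_ae_restrict_of_subset inter_subset_left
                filter_upwards [ae_restrict_mem hO.measurableSet] with z hz
                exact ENNReal.ofReal_le_ofReal (hX2 z hz i)
            _ ≤ _ := by
                apply lintegral_mono_set
                rintro z ⟨hz, hz', hz''⟩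
                exact ⟨⟨hz', hz.1.2⟩, hz''.1,
                  Metric.closedBall_subset_closedBall hR.le hz''.2⟩
        exact h2.trans_lt (hs.s1 K hts hK a))
      (hint1 i)
    exact h1
  have hsum : ∫ z in O, ∑ i, Xf z i * dzb (G i) z (Xf z) = 0 := by
    rw [integral_finsetSum _ (fun i _ => hint1 i)]
    exact Finset.sum_eq_zero (fun i _ => hzero i)
  have hre : ∫ z in O, (∑ i, Xf z i * dzb (G i) z (Xf z)).re = 0 := by
    have h1 : Integrable (fun z => ∑ i, Xf z i * dzb (G i) z (Xf z)) (volume.restrict O) :=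
      integrable_finsetSum _ (fun i _ => hint1 i)
    have h2 := Complex.reCLM.integral_comp_comm h1
    rw [hsum] at h2
    simpa using h2
  have hpt : ∀ z ∈ O, (∑ i, Xf z i * dzb (G i) z (Xf z)).re =
      Q z * lev φ z (Xf z) + (dr φ z (Xf z) * conj (dr Q z (Xf z))).re := by
    intro z hz
    have h1 : ∑ i, Xf z i * dzb (G i) z (Xf z) =
        ((Q z * lev φ z (Xf z) : ℝ) : ℂ) + dr φ z (Xf z) * conj (dr Q z (Xf z)) := by
      rw [Finset.sum_congr rfl (fun i _ => hterm z hz i), Finset.sum_add_distrib,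
        ← Finset.mul_sum, ← Finset.sum_mul, ← hlev' z (Xf z), ← hdr' z (Xf z)]
      push_cast
      ring
    rw [h1, Complex.add_re, Complex.ofReal_re]
  rw [setIntegral_congr_fun hO.measurableSet hpt, integral_add hint2 hint3] at hre
  rw [setIntegral_congr_fun hO.measurableSet e3]
  have h5 : ∫ z in O, q (F z) (σ z) * lev φ z (cf F k z) =
      ∫ z in O, Q z * lev φ z (Xf z) := rfl
  rw [h5]
  linarith

end Pool.Agent.H33.VG
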