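import Mathlib
import Pool.Agent.H95.VG.Targets1
import Pool.Agent.H15.VG.Basic
import Pool.Agent.H33.VG.BY1

/-!
# MP_6803f2_an: uniform bounds for the cutoffs (`T_CST`)
-/

open MeasureTheory Set Filter Topology
open scoped ENNReal NNReal ContDiff ComplexConjugate

namespace Pool.Agent.H33.VG

open Pool.Agent.H95.VG Pool.Agent.H15.VG

section

variable {n : ℕ}

theorem two_le_inf : (2 : WithTop ℕ∞) ≤ ((⊤ : ℕ∞) : WithTop ℕ∞) := by
  have h : ((2 : ℕ∞) : WithTop ℕ∞) ≤ ((⊤ : ℕ∞) : WithTop ℕ∞) := WithTop.coe_le_coe.2 le_top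
  exact h

theorem lev_congr {E : Type*} [NormedAddCommGroup E] [NormedSpace ℝ E] {g g' : V n → E} {z : V n}
    (h : g =ᶠ[𝓝 z] g') (v : V n) : lev g z v = lev g' z v := by
  unfold lev
  have h1 : ∀ w : V n, (fun x => fderiv ℝ g x w) =ᶠ[𝓝 z] fun x => fderiv ℝ g' x w := by
    intro w
    filter_upwards [h.fderiv (𝕜 := ℝ)] with x hx
    rw [hx]
  rw [(h1 v).fderiv_eq, (h1 (Complex.I • v)).fderiv_eq]

theorem ge_congr {g g' : V n → ℝ} {z : V n} (h : g =ᶠ[𝓝 z] g') (v : V n) :
    ge g z v = ge g' z v := by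
  unfold ge
  rw [dr_congr h]

theorem contDiffOn_dr {g : V n → ℝ} {O : Set (V n)} (hO : IsOpen O) (hg : ContDiffOn ℝ 2 g O)
    (v : V n) : ContDiffOn ℝ 1 (fun z => dr g z v) O := by
  unfold dr
  have h1 : ∀ w : V n, ContDiffOn ℝ 1 (fun z => fderiv ℝ g z w) O := fun w =>
    (hg.fderiv_of_isOpen hO (m := 1) (by norm_num)).clm_apply contDiffOn_const
  have h2 : ∀ w : V n, ContDiffOn ℝ 1 (fun z => ((fderiv ℝ g z w : ℝ) : ℂ)) O := fun w =>
    Complex.ofRealCLM.contDiff.comp_contDiffOn (h1 w)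
  exact ((h2 v).sub (contDiffOn_const.mul (h2 _))).div_const 2

/-- facts on the smooth transition -/
theorem smoothTransition_bounds : ∃ C : ℝ, 0 ≤ C ∧
    (∀ x, |deriv Real.smoothTransition x| ≤ C ∧ |deriv (deriv Real.smoothTransition) x| ≤ C) ∧
    ∀ x < 0, deriv Real.smoothTransition x = 0 ∧ deriv (deriv Real.smoothTransition) x = 0 := by
  have hS : ContDiff ℝ ∞ Real.smoothTransition := Real.smoothTransition.contDiff
  have hS1 : ContDiff ℝ ∞ (deriv Real.smoothTransition) := by
    have := contDiff_infty_iff_deriv.1 hS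
    exact this.2
  have hS2 : ContDiff ℝ ∞ (deriv (deriv Real.smoothTransition)) := by
    have := contDiff_infty_iff_deriv.1 hS1
    exact this.2
  have hlow : ∀ x < 0, deriv Real.smoothTransition x = 0 ∧
      deriv (deriv Real.smoothTransition) x = 0 := by
    have h0 : ∀ x < 0, deriv Real.smoothTransition x = 0 := by
      intro x hx
      have h1 : Real.smoothTransition =ᶠ[𝓝 x] fun _ => 0 := by
        filter_upwards [Iio_mem_nhds hx] with y hy
        exact Real.smoothTransition.zero_of_nonpos (le_of_lt hy)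
      rw [h1.deriv_eq, deriv_const]
    intro x hx
    refine ⟨h0 x hx, ?_⟩
    have h1 : deriv Real.smoothTransition =ᶠ[𝓝 x] fun _ => 0 := by
      filter_upwards [Iio_mem_nhds hx] with y hy
      exact h0 y hy
    rw [h1.deriv_eq, deriv_const]
  have hup : ∀ x, 1 < x → deriv Real.smoothTransition x = 0 ∧
      deriv (deriv Real.smoothTransition) x = 0 := by
    have h0 : ∀ x, 1 < x → deriv Real.smoothTransition x = 0 := by
      intro x hx
      have h1 : Real.smoothTransition =ᶠ[𝓝 x] fun _ => 1 := by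
        filter_upwards [Ioi_mem_nhds hx] with y hy
        exact Real.smoothTransition.one_of_one_le (le_of_lt hy)
      rw [h1.deriv_eq, deriv_const]
    intro x hx
    refine ⟨h0 x hx, ?_⟩
    have h1 : deriv Real.smoothTransition =ᶠ[𝓝 x] fun _ => 0 := by
      filter_upwards [Ioi_mem_nhds hx] with y hy
      exact h0 y hy
    rw [h1.deriv_eq, deriv_const]
  obtain ⟨C1, hC1⟩ := (isCompact_Icc (a := (0 : ℝ)) (b := 1)).exists_bound_of_continuousOn
    hS1.continuous.continuousOn
  obtain ⟨C2, hC2⟩ := (isCompact_Icc (a := (0 : ℝ)) (b := 1)).exists_bound_of_continuousOn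
    hS2.continuous.continuousOn
  refine ⟨|C1| + |C2|, by positivity, ?_, hlow⟩
  intro x
  by_cases hx : x < 0
  · rw [(hlow x hx).1, (hlow x hx).2, abs_zero]
    constructor <;> positivity
  · by_cases hx1 : 1 < x
    · rw [(hup x hx1).1, (hup x hx1).2, abs_zero]
      constructor <;> positivity
    · push Not at hx hx1
      have h1 := hC1 x ⟨hx, hx1⟩
      have h2 := hC2 x ⟨hx, hx1⟩
      rw [Real.norm_eq_abs] at h1 h2
      constructor
      · linarith [le_abs_self C1, abs_nonneg C2]
      · linarith [le_abs_self C2, abs_nonneg C1]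

/-- the one variable cutoff -/
noncomputable def th (t s : ℝ) : ℝ := Real.smoothTransition (s / t + 2)

theorem deriv_th (t s : ℝ) : deriv (th t) s = deriv Real.smoothTransition (s / t + 2) / t := by
  have hS : ContDiff ℝ ∞ Real.smoothTransition := Real.smoothTransition.contDiff
  have h1 : HasDerivAt (fun s : ℝ => s / t + 2) (1 / t) s :=
    ((hasDerivAt_id s).div_const t).add_const 2
  have h2 : HasDerivAt Real.smoothTransition (deriv Real.smoothTransition (s / t + 2))
      (s / t + 2) := (hS.differentiable (by norm_num) _).hasDerivAt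
  have h3 := h2.comp s h1
  have h4 : deriv (th t) s = deriv Real.smoothTransition (s / t + 2) * (1 / t) := h3.deriv
  rw [h4]; ring

theorem deriv2_th (t s : ℝ) :
    deriv (deriv (th t)) s = deriv (deriv Real.smoothTransition) (s / t + 2) / t ^ 2 := by
  have hS1 : ContDiff ℝ ∞ (deriv Real.smoothTransition) :=
    (contDiff_infty_iff_deriv.1 Real.smoothTransition.contDiff).2
  have e : deriv (th t) = fun s => deriv Real.smoothTransition (s / t + 2) / t :=
    funext (deriv_th t)
  rw [e]
  have h1 : HasDerivAt (fun s : ℝ => s / t + 2) (1 / t) s :=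
    ((hasDerivAt_id s).div_const t).add_const 2
  have h2 : HasDerivAt (deriv Real.smoothTransition)
      (deriv (deriv Real.smoothTransition) (s / t + 2)) (s / t + 2) :=
    (hS1.differentiable (by norm_num) _).hasDerivAt
  have h3 := (h2.comp s h1).div_const t
  have h4 : deriv (fun s => deriv Real.smoothTransition (s / t + 2) / t) s =
      deriv (deriv Real.smoothTransition) (s / t + 2) * (1 / t) / t := h3.deriv
  rw [h4]
  rw [mul_one_div, div_div, sq]

theorem contDiff_th (t : ℝ) : ContDiff ℝ ∞ (th t) := by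
  unfold th
  have hS : ContDiff ℝ ∞ Real.smoothTransition := Real.smoothTransition.contDiff
  exact hS.comp ((contDiff_id.div_const t).add contDiff_const)

theorem rho_ev (t : ℝ) {z : V n} (hz : 0 < nsq z) : rho t =ᶠ[𝓝 z] fun x => th t (lu x) := by
  filter_upwards [continuous_nsq.continuousAt.eventually (lt_mem_nhds hz)] with x hx
  unfold rho th
  rw [if_neg hx.ne']

/-- the bounds for `rho t` -/
theorem rho_bounds (hPRD : T_PRD) (hNSQ : T_NSQ) {C : ℝ}
    (hC1 : ∀ x, |deriv Real.smoothTransition x| ≤ C ∧ |deriv (deriv Real.smoothTransition) x| ≤ C)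
    (hC2 : ∀ x < 0, deriv Real.smoothTransition x = 0 ∧ deriv (deriv Real.smoothTransition) x = 0)
    {t : ℝ} (ht : 1 ≤ t) {z : V n} (hz : 0 < nsq z) (v : V n) :
    |lev (rho t) z v| ≤ C / t * lev lu z v + C / t ^ 2 * ge lu z v ∧
    ge (rho t) z v ≤ C ^ 2 / t ^ 2 * ge lu z v ∧
    (lu z < -2 * t → lev (rho t) z v = 0 ∧ ge (rho t) z v = 0) := by
  have ht0 : 0 < t := by linarith
  obtain ⟨hns, hlus, -, -, hnl, -⟩ := hNSQ n
  have hopen : IsOpen {z : V n | 0 < nsq z} := isOpen_lt continuous_const continuous_nsq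
  have hlu2 : ContDiffAt ℝ 2 (lu (n := n)) z :=
    ((hlus.contDiffAt (hopen.mem_nhds hz)).of_le two_le_inf)
  have hlev0 : 0 ≤ lev lu z v := (hnl z v hz).1
  have hge0 : 0 ≤ ge lu z v := sq_nonneg _
  have e1 : lev (rho t) z v = deriv (th t) (lu z) * lev lu z v
      + deriv (deriv (th t)) (lu z) * ge lu z v := by
    rw [lev_congr (rho_ev t hz)]
    exact (hPRD n z v).2.2.2.2 (th t) lu ((contDiff_th t).contDiffAt.of_le two_le_inf) hlu2
  have e2 : ge (rho t) z v = (deriv (th t) (lu z)) ^ 2 * ge lu z v := by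
    rw [ge_congr (rho_ev t hz)]
    have h1 := (hPRD n z v).2.2.2.1 (th t) lu ((contDiff_th t).differentiable (by norm_num) _)
      (hlu2.differentiableAt (by norm_num))
    unfold ge
    rw [h1, norm_mul, Complex.norm_real, Real.norm_eq_abs, mul_pow, sq_abs]
  have d1 : |deriv (th t) (lu z)| ≤ C / t := by
    rw [deriv_th, abs_div, abs_of_pos ht0]
    exact div_le_div_of_nonneg_right (hC1 _).1 ht0.le
  have d2 : |deriv (deriv (th t)) (lu z)| ≤ C / t ^ 2 := by
    rw [deriv2_th, abs_div, abs_of_pos (by positivity : (0 : ℝ) < t ^ 2)]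
    exact div_le_div_of_nonneg_right (hC1 _).2 (by positivity)
  refine ⟨?_, ?_, ?_⟩
  · rw [e1]
    refine (abs_add_le _ _).trans ?_
    rw [abs_mul, abs_mul, abs_of_nonneg hlev0, abs_of_nonneg hge0]
    exact add_le_add (mul_le_mul_of_nonneg_right d1 hlev0) (mul_le_mul_of_nonneg_right d2 hge0)
  · rw [e2]
    apply mul_le_mul_of_nonneg_right _ hge0
    have h1 : (deriv (th t) (lu z)) ^ 2 = |deriv (th t) (lu z)| ^ 2 := (sq_abs _).symm
    rw [h1, ← div_pow]
    exact pow_le_pow_left₀ (abs_nonneg _) d1 2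
  · intro hlt
    have h1 : lu z / t + 2 < 0 := by
      have : lu z / t < -2 := by rw [div_lt_iff₀ ht0]; linarith
      linarith
    rw [e1, e2, deriv_th, deriv2_th, (hC2 _ h1).1, (hC2 _ h1).2]
    simp

end

section

variable {n : ℕ} {X : Type} [TopologicalSpace X] {ι : Type} [Fintype ι]

theorem GE_nonneg {A : Atl n X ι} {w : ι → V n → ℝ} (hw : ∀ a y, 0 ≤ w a y) (f : V n → X)
    (g : V n → ℝ) (z : V n) : 0 ≤ GE A w f g z := by
  unfold GE
  exact Finset.sum_nonneg fun a _ => mul_nonneg (Wt_nonneg A hw a _)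
    (Finset.sum_nonneg fun k _ => sq_nonneg _)

theorem LL_nonneg {A : Atl n X ι} {w : ι → V n → ℝ} (hw : ∀ a y, 0 ≤ w a y) (f : V n → X)
    {g : V n → ℝ} {z : V n} (hg : ∀ v, 0 ≤ lev g z v) : 0 ≤ LL A w f g z := by
  unfold LL
  exact Finset.sum_nonneg fun a _ => mul_nonneg (Wt_nonneg A hw a _)
    (Finset.sum_nonneg fun k _ => hg _)

/-- measurability of sums over the charts on `Dp n \ I` -/
theorem aemeas_Wt {A : Atl n X ι} {w : ι → V n → ℝ} (hw : ∀ a, Continuous (w a)) {f : V n → X}
    {I : Set (V n)} (hs : Sing A f I) (H : ι → V n → ℝ)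
    (hH : ∀ a, ContinuousOn (H a) (Ua A f I a)) :
    AEMeasurable (fun z => ∑ a, Wt A w a (f z) * H a z) (volume.restrict (Dp n \ I)) := by
  have h1 : ∀ a, AEMeasurable (fun z => Wt A w a (f z) * H a z) (volume.restrict (Dp n \ I)) := by
    intro a
    have hcF : ContinuousOn (FF A f a) (Ua A f I a) := (hs.hol a).continuousOn
    have h2 : Measurable ((Ua A f I a).indicator (fun z => w a (FF A f a z) * H a z)) :=
      meas_ind (isOpen_Ua hs a).measurableSet (((hw a).comp_continuousOn hcF).mul (hH a))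
    refine h2.aemeasurable.congr ?_
    filter_upwards [ae_restrict_mem hs.opn.measurableSet] with z hz
    by_cases hz' : f z ∈ (A.φ a).source
    · have h3 : z ∈ Ua A f I a := ⟨hz, hz'⟩
      rw [indicator_of_mem h3]
      unfold Wt
      rw [indicator_of_mem hz']
      rfl
    · have h3 : z ∉ Ua A f I a := fun h => hz' h.2
      rw [indicator_of_notMem h3]
      unfold Wt
      rw [indicator_of_notMem hz', zero_mul]
  exact Finset.aemeasurable_fun_sum _ (fun a _ => h1 a)

theorem aemeas_GE (hSMO : T_SMO) {A : Atl n X ι} {w : ι → V n → ℝ} (hw : ∀ a, Continuous (w a))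
    {f : V n → X} {I : Set (V n)} (hs : Sing A f I) {O : Set (V n)}
    (hDO : Dp n ⊆ O) {g : V n → ℝ} (hg : ContDiffOn ℝ 1 g O) :
    AEMeasurable (GE A w f g) (volume.restrict (Dp n \ I)) := by
  unfold GE
  apply aemeas_Wt hw hs (fun a z => ∑ k, ge g z (cf (FF A f a) k z))
  intro a
  apply continuousOn_finsetSum
  intro k _
  have h0 : Ua A f I a ⊆ O := fun z hz => hDO hz.1.1
  have h1 := contOn_cf hSMO (isOpen_Ua hs a) (hs.hol a) k
  have h2 := continuousOn_dr (isOpen_Ua hs a) (hg.mono h0) h1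
  exact (h2.norm).pow 2

/-- the main integral bound -/
theorem key_bound {A : Atl n X ι} {w : ι → V n → ℝ} (hSMO : T_SMO) (hNSQ : T_NSQ)
    (hw : ∀ a, Continuous (w a)) {f : V n → X} {I : Set (V n)} (hs : Sing A f I) {C : ℝ} (hC : 0 ≤ C) {t : ℝ} (ht : 0 ≤ t)
    (hABM : ∫⁻ z in (Dp n \ I) ∩ {z | nsq z ≤ 1 / 4 ∧ -2 * t ≤ lu z},
        ENNReal.ofReal (GE A w f lu z) ≤ ENNReal.ofReal (C * t ^ 2) ∧
      ∫⁻ z in (Dp n \ I) ∩ {z | nsq z ≤ 1 / 4 ∧ -2 * t ≤ lu z},
        ENNReal.ofReal (LL A w f lu z) ≤ ENNReal.ofReal (C * t))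
    {S : Set (V n)} (hSm : MeasurableSet S) (hS : S ⊆ (Dp n \ I) ∩ {z | nsq z ≤ 1 / 4})
    (g : V n → ℝ≥0∞) {a b : ℝ} (ha : 0 ≤ a) (hb : 0 ≤ b)
    (hg : ∀ z ∈ S, -2 * t ≤ lu z → g z ≤ ENNReal.ofReal (a * LL A w f lu z + b * GE A w f lu z))
    (hg0 : ∀ z ∈ S, lu z < -2 * t → g z = 0) :
    ∫⁻ z in S, g z ≤ ENNReal.ofReal (a * (C * t) + b * (C * t ^ 2)) := by
  obtain ⟨hns, hlus, -, -, hnl, -⟩ := hNSQ n
  have hopen : IsOpen {z : V n | 0 < nsq z} := isOpen_lt continuous_const continuous_nsq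
  have hDO : Dp n ⊆ {z : V n | 0 < nsq z} := fun z hz => hz.1
  set L : Set (V n) := {z | -2 * t ≤ lu z} with hL
  have hLm : MeasurableSet L := measurableSet_le measurable_const measurable_lu
  set T : Set (V n) := (Dp n \ I) ∩ {z | nsq z ≤ 1 / 4 ∧ -2 * t ≤ lu z} with hT
  have hTm : MeasurableSet T := by
    apply hs.opn.measurableSet.inter
    have h1 : {z : V n | nsq z ≤ 1 / 4 ∧ -2 * t ≤ lu z} = {z | nsq z ≤ 1 / 4} ∩ L := rfl
    rw [h1]
    exact (measurableSet_le continuous_nsq.measurable measurable_const).inter hLm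
  have hTD : T ⊆ Dp n \ I := inter_subset_left
  have hGEm : AEMeasurable (GE A w f lu) (volume.restrict T) :=
    (aemeas_GE hSMO hw hs hDO (hlus.of_le (by norm_num))).mono_measure
      (Measure.restrict_mono hTD le_rfl)
  calc ∫⁻ z in S, g z = ∫⁻ z in S, L.indicator g z := by
        apply setLIntegral_congr_fun hSm
        intro z hz
        by_cases hz' : z ∈ L
        · simp only [indicator_of_mem hz']
        · simp only [indicator_of_notMem hz']
          exact hg0 z hz (not_le.1 hz')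
    _ = ∫⁻ z in L ∩ S, g z := setLIntegral_indicator hLm _
    _ ≤ ∫⁻ z in L ∩ S, ENNReal.ofReal (a * LL A w f lu z + b * GE A w f lu z) := by
        apply setLIntegral_mono_ae' (hLm.inter hSm)
        filter_upwards with z hz
        exact hg z hz.2 hz.1
    _ ≤ ∫⁻ z in T, ENNReal.ofReal (a * LL A w f lu z + b * GE A w f lu z) := by
        apply lintegral_mono_set
        rintro z ⟨h1, h2⟩
        exact ⟨(hS h2).1, (hS h2).2, h1⟩
    _ ≤ ∫⁻ z in T, (ENNReal.ofReal a * ENNReal.ofReal (LL A w f lu z) +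
          ENNReal.ofReal b * ENNReal.ofReal (GE A w f lu z)) := by
        apply setLIntegral_mono_ae' hTm
        filter_upwards with z hz
        rw [← ENNReal.ofReal_mul ha, ← ENNReal.ofReal_mul hb]
        exact ENNReal.ofReal_add_le
    _ = ENNReal.ofReal a * (∫⁻ z in T, ENNReal.ofReal (LL A w f lu z)) +
          ENNReal.ofReal b * (∫⁻ z in T, ENNReal.ofReal (GE A w f lu z)) := by
        rw [lintegral_add_right' _ ((hGEm.ennreal_ofReal).const_mul _),
          lintegral_const_mul' _ _ ENNReal.ofReal_ne_top,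
          lintegral_const_mul' _ _ ENNReal.ofReal_ne_top]
    _ ≤ ENNReal.ofReal a * ENNReal.ofReal (C * t) +
          ENNReal.ofReal b * ENNReal.ofReal (C * t ^ 2) := by
        gcongr
        · exact hABM.2
        · exact hABM.1
    _ = ENNReal.ofReal (a * (C * t) + b * (C * t ^ 2)) := by
        rw [← ENNReal.ofReal_mul ha, ← ENNReal.ofReal_mul hb,
          ← ENNReal.ofReal_add (by positivity) (by positivity)]

/-- bound of the Levi form of a `C²` function by the minors, on a compact set -/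
theorem lev_le_Dm (hLVM : T_LVM) (hDOM : T_DOM) {g : V n → ℝ} (hg : ContDiff ℝ 2 g)
    {K : Set (V n)} (hK : IsCompact K) : ∃ M : ℝ, 0 ≤ M ∧ ∀ (Y : V n → V n) (z : V n) (k : Fin n),
      z ∈ K → DifferentiableAt ℂ Y z → |lev g z (cf Y k z)| ≤ M * Dm Y z := by
  have hc : ∀ i j : Fin n, Continuous (fun z => dzb (fun x => dr g x (ek i)) z (ek j)) := by
    intro i j
    have := continuousOn_dzb (G := fun x => dr g x (ek i)) (X := fun _ => ek j) isOpen_univ
      (contDiff_dr hg (ek i)).contDiffOn continuousOn_const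
    rwa [continuousOn_univ] at this
  have h1 : ∀ i j : Fin n, ∃ M : ℝ, ∀ z ∈ K, ‖dzb (fun x => dr g x (ek i)) z (ek j)‖ ≤ M :=
    fun i j => hK.exists_bound_of_continuousOn (hc i j).continuousOn
  choose M hM using h1
  refine ⟨∑ i, ∑ j, |M i j|, Finset.sum_nonneg (fun i _ => Finset.sum_nonneg
    (fun j _ => abs_nonneg _)), ?_⟩
  intro Y z k hz hY
  have hX2 : ∀ i, ‖cf Y k z i‖ ^ 2 ≤ Dm Y z := fun i => (hDOM n Y z hY).2.2.2.2.1 k i
  have hXX : ∀ i j, ‖cf Y k z i‖ * ‖cf Y k z j‖ ≤ Dm Y z := by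
    intro i j
    nlinarith [hX2 i, hX2 j, sq_nonneg (‖cf Y k z i‖ - ‖cf Y k z j‖)]
  have e1 := ((hLVM n z (cf Y k z)).2 g hg.contDiffAt).2
  rw [← Real.norm_eq_abs, ← Complex.norm_real, e1, Finset.sum_mul]
  refine (norm_sum_le _ _).trans (Finset.sum_le_sum (fun i _ => ?_))
  rw [Finset.sum_mul]
  refine (norm_sum_le _ _).trans (Finset.sum_le_sum (fun j _ => ?_))
  rw [norm_mul, norm_mul, RCLike.norm_conj, mul_comm]
  exact mul_le_mul ((hM i j z hz).trans (le_abs_self _)) (hXX i j) (by positivity) (abs_nonneg _)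

end

theorem isCompact_shell (n : ℕ) : IsCompact {z : V n | 1 / 4 ≤ nsq z ∧ nsq z ≤ 1 / 2} := by
  apply Metric.isCompact_of_isClosed_isBounded
  · exact (isClosed_le continuous_const continuous_nsq).inter
      (isClosed_le continuous_nsq continuous_const)
  · apply (Metric.isBounded_ball (x := (0 : V n)) (r := 1)).subset
    intro z hz
    apply Dp_subset_ball
    exact ⟨by linarith [hz.1], by linarith [hz.2]⟩

theorem chi_ev_low {n : ℕ} {z : V n} (hz : nsq z < 1 / 4) : chi =ᶠ[𝓝 z] fun _ => 1 := by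
  filter_upwards [continuous_nsq.continuousAt.eventually (gt_mem_nhds hz)] with x hx
  unfold chi
  exact Real.smoothTransition.one_of_one_le (by linarith)

theorem chi_ev_high {n : ℕ} {z : V n} (hz : 1 / 2 < nsq z) : chi =ᶠ[𝓝 z] fun _ => 0 := by
  filter_upwards [continuous_nsq.continuousAt.eventually (lt_mem_nhds hz)] with x hx
  unfold chi
  exact Real.smoothTransition.zero_of_nonpos (by linarith)

theorem lu_gt_of_nsq {n : ℕ} {z : V n} (hz : 1 / 4 ≤ nsq z) : -1 < lu z := by
  unfold lu
  have h1 : Real.log (1 / 4) ≤ Real.log (nsq z) := Real.log_le_log (by norm_num) hz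
  have h2 : Real.log (1 / 4 : ℝ) = -(2 * Real.log 2) := by
    rw [one_div, Real.log_inv, show (4 : ℝ) = 2 ^ 2 by norm_num, Real.log_pow]
    push_cast
    ring
  have h3 := Real.log_two_lt_d9
  linarith

theorem rho_ev_one {n : ℕ} {t : ℝ} (ht : 1 ≤ t) {z : V n} (hz : 1 / 4 ≤ nsq z) :
    rho t =ᶠ[𝓝 z] fun _ => 1 := by
  have hz0 : 0 < nsq z := by linarith
  have h1 : -t < lu z := by linarith [lu_gt_of_nsq hz]
  filter_upwards [rho_ev t hz0, (continuousAt_lu hz0).eventually (lt_mem_nhds h1)] with x hx hx'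
  rw [hx]
  unfold th
  apply Real.smoothTransition.one_of_one_le
  have : -1 ≤ lu x / t := by rw [le_div_iff₀ (by linarith)]; linarith
  linarith

/-- CST -/
theorem cst (hSMO : T_SMO) (hPRD : T_PRD) (hLVM : T_LVM) (hNSQ : T_NSQ) (hCUT : T_CUT)
    (hDOM : T_DOM) (hOAO : T_OAO) (hCMP : T_CMP) (hABM : T_ABM) : T_CST := by
  intro n X _ _ _ ι _ A w f I hG hs
  obtain ⟨CS, hCS0, hCS1, hCS2⟩ := smoothTransition_bounds
  obtain ⟨C1, hC10, hC1⟩ := hCMP n X ι A w hG
  obtain ⟨C2', hC2'⟩ := hABM n X ι A w f I hG hs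
  set C2 : ℝ := |C2'| with hC2def
  have hC20 : 0 ≤ C2 := abs_nonneg _
  have hw : ∀ a, Continuous (w a) := fun a => (hG.smooth a).continuous
  have hw0 := hG.nonneg
  have hC2 : ∀ t : ℝ, 1 ≤ t →
      ∫⁻ z in (Dp n \ I) ∩ {z | nsq z ≤ 1 / 4 ∧ -2 * t ≤ lu z},
        ENNReal.ofReal (GE A w f lu z) ≤ ENNReal.ofReal (C2 * t ^ 2) ∧
      ∫⁻ z in (Dp n \ I) ∩ {z | nsq z ≤ 1 / 4 ∧ -2 * t ≤ lu z},
        ENNReal.ofReal (LL A w f lu z) ≤ ENNReal.ofReal (C2 * t) := by
    intro t ht
    obtain ⟨h1, h2⟩ := hC2' t ht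
    refine ⟨h1.trans (ENNReal.ofReal_le_ofReal ?_), h2.trans (ENNReal.ofReal_le_ofReal ?_)⟩
    · exact mul_le_mul_of_nonneg_right (le_abs_self _) (by positivity)
    · exact mul_le_mul_of_nonneg_right (le_abs_self _) (by linarith)
  obtain ⟨hns, hlus, -, hnlev, hnl, -⟩ := hNSQ n
  have hlev0 : ∀ z : V n, 0 < nsq z → ∀ v, 0 ≤ lev lu z v := fun z hz v => (hnl z v hz).1
  have hopen : IsOpen {z : V n | 0 < nsq z} := isOpen_lt continuous_const continuous_nsq
  have hLL0 : ∀ z ∈ Dp n, 0 ≤ LL A w f lu z := fun z hz => LL_nonneg hw0 f (hlev0 z hz.1)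
  have hGE0 : ∀ z, 0 ≤ GE A w f lu z := fun z => GE_nonneg hw0 f lu z
  have hPm : MeasurableSet ((Dp n \ I) ∩ {z | nsq z ≤ 1 / 4}) :=
    hs.opn.measurableSet.inter (measurableSet_le continuous_nsq.measurable measurable_const)
  -- comparison for `lu`
  have hcmp : ∀ z ∈ Dp n \ I, ∀ a, z ∈ Cb A f a 2 → ∀ k,
      lev lu z (cf (FF A f a) k z) ≤ C1 * LL A w f lu z ∧
      ge lu z (cf (FF A f a) k z) ≤ C1 * GE A w f lu z := by
    intro z hz a hza k
    obtain ⟨-, -, h1, h2⟩ := hC1 f I hs z hz a hza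
    have hlu2 : ContDiffAt ℝ 2 (lu (n := n)) z :=
      (hlus.contDiffAt (hopen.mem_nhds hz.1.1)).of_le two_le_inf
    have h3 := h1 lu hlu2 (hlev0 z hz.1.1)
    have h4 := h2 lu (hlu2.differentiableAt (by norm_num))
    constructor
    · exact (Finset.single_le_sum (f := fun k => lev lu z (cf (FF A f a) k z))
        (fun k _ => hlev0 z hz.1.1 _) (Finset.mem_univ k)).trans h3
    · exact (Finset.single_le_sum (f := fun k => ge lu z (cf (FF A f a) k z))
        (fun k _ => sq_nonneg _) (Finset.mem_univ k)).trans h4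
  -- the shell
  set K : Set (V n) := {z : V n | 1 / 4 ≤ nsq z ∧ nsq z ≤ 1 / 2} with hK
  have hKc : IsCompact K := isCompact_shell n
  have hKD : K ⊆ Dp n := fun z hz => ⟨by linarith [hz.1], by linarith [hz.2]⟩
  have hchi2 : ContDiff ℝ 2 (chi (n := n)) := (hCUT n).1.of_le two_le_inf
  obtain ⟨M, hM0, hM⟩ := lev_le_Dm hLVM hDOM hchi2 hKc
  set Da : ι → ℝ := fun a => (∫⁻ z in (K \ I) ∩ Cb A f a 2,
    ENNReal.ofReal (Dm (FF A f a) z)).toReal with hDa
  have hDa0 : ∀ a, 0 ≤ Da a := fun a => ENNReal.toReal_nonneg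
  have hDae : ∀ a, ∫⁻ z in (K \ I) ∩ Cb A f a 2, ENNReal.ofReal (Dm (FF A f a) z)
      = ENNReal.ofReal (Da a) := fun a => (ENNReal.ofReal_toReal (hs.s1 K hKD hKc a).ne).symm
  have hsumD : ∀ a, Da a ≤ ∑ a, Da a := fun a =>
    Finset.single_le_sum (f := Da) (fun a _ => hDa0 a) (Finset.mem_univ a)
  set E1 : ℝ := CS * (C1 * C2) + CS * (C1 * C2) with hE1
  set E2 : ℝ := CS ^ 2 * (C1 * C2) with hE2
  set E3 : ℝ := CS * C2 + CS * C2 with hE3
  have hE10 : 0 ≤ E1 := by positivity
  have hE20 : 0 ≤ E2 := by positivity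
  have hE30 : 0 ≤ E3 := by positivity
  have hMS : 0 ≤ M * ∑ a, Da a := mul_nonneg hM0 (Finset.sum_nonneg (fun a _ => hDa0 a))
  refine ⟨E1 + M * ∑ a, Da a + E2 + E3, ?_, ?_⟩
  · intro t ht a k
    have ht0 : 0 < t := by linarith
    have hrb := fun (z : V n) (hz : 0 < nsq z) (v : V n) => rho_bounds hPRD hNSQ hCS1 hCS2 ht hz v
    have hCbm : MeasurableSet ((Dp n \ I) ∩ Cb A f a 2) := measurableSet_Cb hOAO hs a le_rfl
    have hqm : MeasurableSet {z : V n | nsq z ≤ 1 / 4} :=
      measurableSet_le continuous_nsq.measurable measurable_const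
    refine ⟨?_, ?_, ?_⟩
    · -- (i)
      have hlt : MeasurableSet {z : V n | nsq z < 1 / 4} :=
        measurableSet_lt continuous_nsq.measurable measurable_const
      have hge : MeasurableSet {z : V n | 1 / 4 ≤ nsq z} :=
        measurableSet_le measurable_const continuous_nsq.measurable
      have hsplit : (Dp n \ I) ∩ Cb A f a 2 ⊆ ((Dp n \ I) ∩ Cb A f a 2 ∩ {z | nsq z < 1 / 4}) ∪
          ((Dp n \ I) ∩ Cb A f a 2 ∩ {z | 1 / 4 ≤ nsq z}) := by
        intro z hz
        rcases lt_or_ge (nsq z) (1 / 4) with h | h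
        · exact Or.inl ⟨hz, h⟩
        · exact Or.inr ⟨hz, h⟩
      have p1 : ∫⁻ z in (Dp n \ I) ∩ Cb A f a 2 ∩ {z | nsq z < 1 / 4},
          ENNReal.ofReal |lev (fun x => chi x * rho t x) z (cf (FF A f a) k z)| ≤
          ENNReal.ofReal E1 := by
        have h1 := key_bound hSMO hNSQ hw hs hC20 ht0.le (hC2 t ht) (hCbm.inter hlt)
          (fun z hz => ⟨hz.1.1, le_of_lt (show nsq z < 1 / 4 from hz.2)⟩)
          (fun z => ENNReal.ofReal |lev (fun x => chi x * rho t x) z (cf (FF A f a) k z)|)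
          (a := CS / t * C1) (b := CS / t ^ 2 * C1) (by positivity) (by positivity)
          (by
            intro z hz _
            have hzp : 0 < nsq z := hz.1.1.1.1
            apply ENNReal.ofReal_le_ofReal
            have h2 : (fun x => chi x * rho t x) =ᶠ[𝓝 z] rho t := by
              filter_upwards [chi_ev_low hz.2] with x hx
              rw [hx, one_mul]
            rw [lev_congr h2]
            refine (hrb z hzp _).1.trans ?_
            obtain ⟨h3, h4⟩ := hcmp z hz.1.1 a hz.1.2 k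
            rw [mul_assoc, mul_assoc]
            exact add_le_add (mul_le_mul_of_nonneg_left h3 (by positivity))
              (mul_le_mul_of_nonneg_left h4 (by positivity)))
          (by
            intro z hz hlt
            have hzp : 0 < nsq z := hz.1.1.1.1
            have h2 : (fun x => chi x * rho t x) =ᶠ[𝓝 z] rho t := by
              filter_upwards [chi_ev_low hz.2] with x hx
              rw [hx, one_mul]
            rw [lev_congr h2, ((hrb z hzp _).2.2 hlt).1]
            simp)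
        refine h1.trans (ENNReal.ofReal_le_ofReal (le_of_eq ?_))
        rw [hE1]
        field_simp
      have p2 : ∫⁻ z in (Dp n \ I) ∩ Cb A f a 2 ∩ {z | 1 / 4 ≤ nsq z},
          ENNReal.ofReal |lev (fun x => chi x * rho t x) z (cf (FF A f a) k z)| ≤
          ENNReal.ofReal (M * ∑ a, Da a) := by
        have hKm : MeasurableSet K := hKc.measurableSet
        calc ∫⁻ z in (Dp n \ I) ∩ Cb A f a 2 ∩ {z | 1 / 4 ≤ nsq z},
              ENNReal.ofReal |lev (fun x => chi x * rho t x) z (cf (FF A f a) k z)|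
            = ∫⁻ z in (Dp n \ I) ∩ Cb A f a 2 ∩ {z | 1 / 4 ≤ nsq z}, K.indicator
              (fun z => ENNReal.ofReal |lev (fun x => chi x * rho t x) z (cf (FF A f a) k z)|) z := by
              apply setLIntegral_congr_fun (hCbm.inter hge)
              intro z hz
              by_cases hzK : z ∈ K
              · simp only [indicator_of_mem hzK]
              · simp only [indicator_of_notMem hzK]
                have h1 : 1 / 2 < nsq z := by
                  by_contra hcon
                  exact hzK ⟨hz.2, not_lt.1 hcon⟩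
                have h2 : (fun x => chi x * rho t x) =ᶠ[𝓝 z] fun _ => 0 := by
                  filter_upwards [chi_ev_high h1] with x hx
                  rw [hx, zero_mul]
                rw [lev_congr h2]
                unfold lev
                simp
          _ = ∫⁻ z in K ∩ ((Dp n \ I) ∩ Cb A f a 2 ∩ {z | 1 / 4 ≤ nsq z}),
              ENNReal.ofReal |lev (fun x => chi x * rho t x) z (cf (FF A f a) k z)| :=
              setLIntegral_indicator hKm _
          _ ≤ ∫⁻ z in K ∩ ((Dp n \ I) ∩ Cb A f a 2 ∩ {z | 1 / 4 ≤ nsq z}),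
              ENNReal.ofReal M * ENNReal.ofReal (Dm (FF A f a) z) := by
              apply setLIntegral_mono_ae' (hKm.inter (hCbm.inter hge))
              filter_upwards with z hz
              rw [← ENNReal.ofReal_mul hM0]
              apply ENNReal.ofReal_le_ofReal
              have h2 : (fun x => chi x * rho t x) =ᶠ[𝓝 z] chi := by
                filter_upwards [rho_ev_one ht hz.1.1] with x hx
                rw [hx, mul_one]
              rw [lev_congr h2]
              apply hM _ _ _ hz.1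
              have h3 : z ∈ Ua A f I a := ⟨hz.2.1.1, hz.2.1.2.1⟩
              exact (hs.hol a z h3).differentiableAt ((isOpen_Ua hs a).mem_nhds h3)
          _ = ENNReal.ofReal M * ∫⁻ z in K ∩ ((Dp n \ I) ∩ Cb A f a 2 ∩ {z | 1 / 4 ≤ nsq z}),
              ENNReal.ofReal (Dm (FF A f a) z) := lintegral_const_mul' _ _ ENNReal.ofReal_ne_top
          _ ≤ ENNReal.ofReal M * ∫⁻ z in (K \ I) ∩ Cb A f a 2,
              ENNReal.ofReal (Dm (FF A f a) z) := by
              apply mul_le_mul' le_rfl
              apply lintegral_mono_set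
              rintro z ⟨h1, ⟨h2, h3⟩, -⟩
              exact ⟨⟨h1, h2.2⟩, h3⟩
          _ = ENNReal.ofReal (M * Da a) := by rw [hDae a, ← ENNReal.ofReal_mul hM0]
          _ ≤ ENNReal.ofReal (M * ∑ a, Da a) :=
              ENNReal.ofReal_le_ofReal (mul_le_mul_of_nonneg_left (hsumD a) hM0)
      calc ∫⁻ z in (Dp n \ I) ∩ Cb A f a 2,
            ENNReal.ofReal |lev (fun x => chi x * rho t x) z (cf (FF A f a) k z)|
          ≤ ∫⁻ z in ((Dp n \ I) ∩ Cb A f a 2 ∩ {z | nsq z < 1 / 4}) ∪
              ((Dp n \ I) ∩ Cb A f a 2 ∩ {z | 1 / 4 ≤ nsq z}),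
            ENNReal.ofReal |lev (fun x => chi x * rho t x) z (cf (FF A f a) k z)| :=
            lintegral_mono_set hsplit
        _ ≤ _ := lintegral_union_le _ _ _
        _ ≤ ENNReal.ofReal E1 + ENNReal.ofReal (M * ∑ a, Da a) := add_le_add p1 p2
        _ = ENNReal.ofReal (E1 + M * ∑ a, Da a) := (ENNReal.ofReal_add hE10 hMS).symm
        _ ≤ _ := ENNReal.ofReal_le_ofReal (by linarith)
    · -- (ii)
      have h1 := key_bound hSMO hNSQ hw hs hC20 ht0.le (hC2 t ht) (hCbm.inter hqm)
        (fun z hz => ⟨hz.1.1, hz.2⟩)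
        (fun z => ENNReal.ofReal (ge (rho t) z (cf (FF A f a) k z)))
        (a := 0) (b := CS ^ 2 / t ^ 2 * C1) le_rfl (by positivity)
        (by
          intro z hz _
          have hzp : 0 < nsq z := hz.1.1.1.1
          apply ENNReal.ofReal_le_ofReal
          refine (hrb z hzp _).2.1.trans ?_
          obtain ⟨h3, h4⟩ := hcmp z hz.1.1 a hz.1.2 k
          rw [zero_mul, zero_add, mul_assoc]
          exact mul_le_mul_of_nonneg_left h4 (by positivity))
        (by
          intro z hz hlt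
          have hzp : 0 < nsq z := hz.1.1.1.1
          rw [((hrb z hzp _).2.2 hlt).2]
          simp)
      refine h1.trans (ENNReal.ofReal_le_ofReal ?_)
      have h2 : 0 * (C2 * t) + CS ^ 2 / t ^ 2 * C1 * (C2 * t ^ 2) = E2 := by
        rw [hE2]
        field_simp
        ring
      rw [h2]
      linarith
    · -- (iii)
      have h1 := key_bound hSMO hNSQ hw hs hC20 ht0.le (hC2 t ht) hPm subset_rfl
        (fun z => ENNReal.ofReal |LL A w f (rho t) z|)
        (a := CS / t) (b := CS / t ^ 2) (by positivity) (by positivity)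
        (by
          intro z hz _
          have hzp : 0 < nsq z := hz.1.1.1
          apply ENNReal.ofReal_le_ofReal
          unfold LL GE
          refine (Finset.abs_sum_le_sum_abs _ _).trans ?_
          rw [Finset.mul_sum, Finset.mul_sum, ← Finset.sum_add_distrib]
          apply Finset.sum_le_sum
          intro b _
          have hWt := Wt_nonneg A hw0 b (f z)
          rw [abs_mul, abs_of_nonneg hWt]
          have h3 : |∑ k, lev (rho t) z (cf (FF A f b) k z)| ≤
              CS / t * ∑ k, lev lu z (cf (FF A f b) k z) +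
              CS / t ^ 2 * ∑ k, ge lu z (cf (FF A f b) k z) := by
            refine (Finset.abs_sum_le_sum_abs _ _).trans ?_
            rw [Finset.mul_sum, Finset.mul_sum, ← Finset.sum_add_distrib]
            exact Finset.sum_le_sum (fun k _ => (hrb z hzp _).1)
          have h4 := mul_le_mul_of_nonneg_left h3 hWt
          refine h4.trans (le_of_eq ?_)
          ring)
        (by
          intro z hz hlt
          have hzp : 0 < nsq z := hz.1.1.1
          have h3 : LL A w f (rho t) z = 0 := by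
            unfold LL
            apply Finset.sum_eq_zero
            intro b _
            rw [Finset.sum_eq_zero (fun k _ => ((hrb z hzp _).2.2 hlt).1), mul_zero]
          rw [h3]
          simp)
      refine h1.trans (ENNReal.ofReal_le_ofReal ?_)
      have h2 : CS / t * (C2 * t) + CS / t ^ 2 * (C2 * t ^ 2) = E3 := by
        rw [hE3]
        field_simp
      rw [h2]
      linarith
  · -- (iv)
    have hLLn : ∀ z ∈ Dp n, LL A w f nsq z =
        nsq z * (2 * LL A w f lu z + 4 * GE A w f lu z) := by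
      intro z hz
      unfold LL GE
      rw [Finset.mul_sum, Finset.mul_sum, ← Finset.sum_add_distrib, Finset.mul_sum]
      apply Finset.sum_congr rfl
      intro b _
      have h1 : ∑ k, lev nsq z (cf (FF A f b) k z) = nsq z *
          (2 * ∑ k, lev lu z (cf (FF A f b) k z) + 4 * ∑ k, ge lu z (cf (FF A f b) k z)) := by
        rw [Finset.mul_sum, Finset.mul_sum, ← Finset.sum_add_distrib, Finset.mul_sum]
        apply Finset.sum_congr rfl
        intro k _
        rw [hnlev]
        exact (hnl z _ hz.1).2.1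
      rw [h1]
      ring
    set P : ℕ → Set (V n) := fun j => ((Dp n \ I) ∩ {z | nsq z ≤ 1 / 4}) ∩
      {z | -2 * ((j : ℝ) + 1) ≤ lu z ∧ nsq z ≤ Real.exp (-(4 * (j : ℝ)))} with hP
    have hPjm : ∀ j, MeasurableSet (P j) := by
      intro j
      apply hPm.inter
      exact (measurableSet_le measurable_const measurable_lu).inter
        (measurableSet_le continuous_nsq.measurable measurable_const)
    have hcov : (Dp n \ I) ∩ {z | nsq z ≤ 1 / 4} ⊆ ⋃ j, P j := by
      intro z hz
      have hzp : 0 < nsq z := hz.1.1.1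
      have hz4 : nsq z ≤ 1 / 4 := hz.2
      have hlu : lu z ≤ 0 := by
        unfold lu
        have := Real.log_nonpos hzp.le (by linarith)
        linarith
      rw [mem_iUnion]
      refine ⟨⌊-lu z / 2⌋₊, hz, ?_, ?_⟩
      · have h1 := Nat.lt_floor_add_one (-lu z / 2)
        linarith
      · have h1 : (⌊-lu z / 2⌋₊ : ℝ) ≤ -lu z / 2 := Nat.floor_le (by linarith)
        have h2 : nsq z = Real.exp (2 * lu z) := by
          unfold lu
          rw [mul_div_cancel₀ _ (two_ne_zero), Real.exp_log hzp]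
        rw [h2]
        apply Real.exp_le_exp.2
        linarith
    have hbound : ∀ j, ∫⁻ z in P j, ENNReal.ofReal (LL A w f nsq z) ≤
        ENNReal.ofReal (6 * C2 * Real.exp (-2) ^ j) := by
      intro j
      have hj0 : (0 : ℝ) ≤ j := Nat.cast_nonneg j
      have h1 := key_bound hSMO hNSQ hw hs hC20 (by positivity)
        (hC2 ((j : ℝ) + 1) (by linarith)) (hPjm j) (fun z hz => hz.1)
        (fun z => ENNReal.ofReal (LL A w f nsq z))
        (a := 2 * Real.exp (-(4 * (j : ℝ)))) (b := 4 * Real.exp (-(4 * (j : ℝ))))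
        (by positivity) (by positivity)
        (by
          intro z hz _
          apply ENNReal.ofReal_le_ofReal
          rw [hLLn z hz.1.1.1]
          have h2 := hLL0 z hz.1.1.1
          have h3 := hGE0 z
          have h4 : nsq z ≤ Real.exp (-(4 * (j : ℝ))) := hz.2.2
          have h5 : nsq z * (2 * LL A w f lu z + 4 * GE A w f lu z) ≤
              Real.exp (-(4 * (j : ℝ))) * (2 * LL A w f lu z + 4 * GE A w f lu z) :=
            mul_le_mul_of_nonneg_right h4 (by positivity)
          refine h5.trans (le_of_eq ?_)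
          ring)
        (by
          intro z hz hlt
          exact absurd hz.2.1 (not_le.2 hlt))
      refine h1.trans (ENNReal.ofReal_le_ofReal ?_)
      have h2 : (j : ℝ) + 1 ≤ Real.exp j := Real.add_one_le_exp _
      have h3 : ((j : ℝ) + 1) ^ 2 ≤ Real.exp (2 * j) := by
        have h4 : Real.exp (2 * (j : ℝ)) = Real.exp j ^ 2 := by
          rw [← Real.exp_nat_mul]; norm_num
        rw [h4]
        exact pow_le_pow_left₀ (by positivity) h2 2
      have h5 : (j : ℝ) + 1 ≤ ((j : ℝ) + 1) ^ 2 := by nlinarith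
      have h6 : Real.exp (-2) ^ j = Real.exp (-(4 * (j : ℝ))) * Real.exp (2 * j) := by
        rw [← Real.exp_add, ← Real.exp_nat_mul]
        congr 1
        ring
      rw [h6]
      have h7 : 0 < Real.exp (-(4 * (j : ℝ))) := Real.exp_pos _
      have h8 : 2 * Real.exp (-(4 * (j : ℝ))) * (C2 * ((j : ℝ) + 1)) +
          4 * Real.exp (-(4 * (j : ℝ))) * (C2 * ((j : ℝ) + 1) ^ 2) =
          Real.exp (-(4 * (j : ℝ))) * C2 * (2 * ((j : ℝ) + 1) + 4 * ((j : ℝ) + 1) ^ 2) := by ring
      have h9 : 6 * C2 * (Real.exp (-(4 * (j : ℝ))) * Real.exp (2 * j)) =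
          Real.exp (-(4 * (j : ℝ))) * C2 * (6 * Real.exp (2 * j)) := by ring
      rw [h8, h9]
      exact mul_le_mul_of_nonneg_left (by linarith) (by positivity)
    have hgeo : Summable (fun j : ℕ => 6 * C2 * Real.exp (-2) ^ j) := by
      apply Summable.mul_left
      apply summable_geometric_of_lt_one (Real.exp_pos _).le
      rw [Real.exp_lt_one_iff]
      norm_num
    calc ∫⁻ z in (Dp n \ I) ∩ {z | nsq z ≤ 1 / 4}, ENNReal.ofReal (LL A w f nsq z)
        ≤ ∫⁻ z in ⋃ j, P j, ENNReal.ofReal (LL A w f nsq z) := lintegral_mono_set hcov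
      _ ≤ ∑' j, ∫⁻ z in P j, ENNReal.ofReal (LL A w f nsq z) := lintegral_iUnion_le _ _
      _ ≤ ∑' j, ENNReal.ofReal (6 * C2 * Real.exp (-2) ^ j) := ENNReal.tsum_le_tsum hbound
      _ = ENNReal.ofReal (∑' j, 6 * C2 * Real.exp (-2) ^ j) :=
          (ENNReal.ofReal_tsum_of_nonneg (fun j => by positivity) hgeo).symm
      _ < ⊤ := ENNReal.ofReal_lt_top

end Pool.Agent.H33.VG
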