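import Pool.Agent.H30.VG.FLX
import Pool.Agent.H24.VG.PFM
import Pool.Agent.H73.VG.IDN
import Pool.Agent.H33.VG.BY1
import Pool.Agent.H15.VG.Basic

/-!
# MP_6803f2_an: the inner flux (`T_INN`)
-/

open MeasureTheory Set Filter Topology
open scoped ENNReal NNReal ContDiff ComplexConjugate

set_option autoImplicit false

namespace Pool.Agent.H33.VG.INN

open Pool.Agent.H95.VG Pool.Agent.H30.VG.CUT Pool.Agent.H30.VG.Sh Pool.Agent.H30.VG.ABM
  Pool.Agent.H30.VG.FLX

variable {n : ℕ}

/-- the cubic function of `lu` -/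
noncomputable def gF (t : ℝ) (z : V n) : ℝ :=
  if nsq z = 0 then 0 else 1 * (max (lu z / t + 1) 0) ^ 3

variable {X : Type} [TopologicalSpace X] {ι : Type} [Fintype ι]

theorem LL_chi_int (hCUT : T_CUT) (hSTA : T_STA) [T2Space X] {A : Atl n X ι}
    {w : ι → V n → ℝ} {f : V n → X} {I : Set (V n)} (hG : Gau A w) (hS : Sing A f I) :
    IntegrableOn (LL A w f chi) (Dp n \ I) := by
  have hDpm : MeasurableSet (Dp n \ I) := hS.opn.measurableSet
  have hQm : MeasurableSet {z : V n | nsq z ≤ 1 / 4} :=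
    measurableSet_le nsqc.measurable measurable_const
  set Bq : Set (V n) := (Dp n \ I) \ {z : V n | nsq z ≤ 1 / 4} with hBq
  have hBm : MeasurableSet Bq := hDpm.diff hQm
  have hchiB : IntegrableOn (LL A w f chi) Bq := by
    obtain ⟨hrho, hrho2, hcs, hts⟩ := (hCUT n).2.2.2.1 1 le_rfl
    have hφ : ContDiff ℝ 2 (fun z : V n => chi z * rho 1 z) :=
      ((hCUT n).1.mul hrho).of_le le2
    obtain ⟨i1, -⟩ := hSTA n X ι A w f I hG hS _ hφ hcs hts
    refine (integrableOn_congr_fun ?_ hBm).mp (i1.mono_set Set.sdiff_subset)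
    intro z hz
    have hz2 : 1 / 4 < nsq z := not_le.mp hz.2
    refine LL_congr A w f ?_
    filter_upwards [continuousAt_const.eventually_lt nsqc.continuousAt hz2] with x hx
    have h1 := log_quarter x hx
    rw [(hrho2 x).2.2.1 (by linarith) (by linarith), mul_one]
  have hchiA : IntegrableOn (LL A w f chi) ((Dp n \ I) ∩ {z : V n | nsq z ≤ 1 / 4}) := by
    refine (integrableOn_congr_fun (f := fun _ => (0 : ℝ)) ?_ (hDpm.inter hQm)).mp integrableOn_zero
    intro z hz
    exact (LL_chi hCUT A w f z hz.2).symm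
  have := hchiA.union hchiB
  rwa [hBq, Set.inter_union_sdiff] at this

theorem gF_facts (hCUT : T_CUT) {t : ℝ} (ht : 1 ≤ t) :
    ContDiff ℝ 2 (gF (n := n) t) ∧ HasCompactSupport (fun z : V n => chi z * gF t z) ∧
    tsupport (fun z : V n => chi z * gF t z) ⊆ Dp n := by
  have ht0 : 0 < t := by linarith
  obtain ⟨hF2, hF', hF''⟩ := cub_facts t 1 1 ht0
  have hFz : ∀ s ≤ -t, (fun s : ℝ => 1 * (max (s / t + 1) 0) ^ 3) s = 0 := by
    intro s hs
    have : s / t + 1 ≤ 0 := by
      have : s / t ≤ -1 := by rw [div_le_iff₀ ht0]; linarith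
      linarith
    simp only [max_eq_right this]
    norm_num
  exact (hCUT n).2.2.2.2 _ hF2 ⟨_, hFz⟩

theorem gF_bound {t : ℝ} (ht : 1 ≤ t) {z : V n} (hz : z ∈ Dp n) :
    0 ≤ gF t z ∧ gF t z ≤ 1 := by
  have ht0 : 0 < t := by linarith
  have h1 := lu_neg z hz
  unfold gF
  rw [if_neg hz.1.ne', one_mul]
  have h2 : 0 ≤ max (lu z / t + 1) 0 := le_max_right _ _
  have h3 : max (lu z / t + 1) 0 ≤ 1 := by
    apply max_le _ zero_le_one
    have : lu z / t ≤ 0 := div_nonpos_of_nonpos_of_nonneg h1 ht0.le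
    linarith
  exact ⟨by positivity, pow_le_one₀ h2 h3⟩

theorem gF_tendsto {z : V n} (hz : z ∈ Dp n) : Tendsto (fun t : ℝ => gF t z) atTop (𝓝 1) := by
  unfold gF
  simp only [if_neg hz.1.ne', one_mul]
  have h1 : Tendsto (fun t : ℝ => lu z / t) atTop (𝓝 0) := tendsto_const_nhds.div_atTop tendsto_id
  have h2 : Tendsto (fun t : ℝ => max (lu z / t + 1) 0) atTop (𝓝 (max (0 + 1) 0)) :=
    (h1.add_const 1).max tendsto_const_nhds
  have h3 := h2.pow 3
  simpa using h3

theorem gF_near {t : ℝ} {z : V n} (hz : 0 < nsq z) :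
    gF t =ᶠ[𝓝 z] fun x => (fun s : ℝ => 1 * (max (s / t + 1) 0) ^ 3) (lu x) := by
  filter_upwards [continuousAt_const.eventually_lt nsqc.continuousAt hz] with x hx
  unfold gF
  rw [if_neg hx.ne']

theorem LL_gF_nonneg (hPRD : T_PRD) (hNSQ : T_NSQ) (hCUT : T_CUT) {A : Atl n X ι}
    {w : ι → V n → ℝ} (hG : Gau A w) (f : V n → X) {t : ℝ} (ht : 1 ≤ t) {z : V n}
    (hz : 0 < nsq z) (hz4 : nsq z ≤ 1 / 4) :
    0 ≤ LL A w f (fun z : V n => chi z * gF t z) z := by
  have ht0 : 0 < t := by linarith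
  obtain ⟨hF2, hF', hF''⟩ := cub_facts t 1 1 ht0
  rw [LL_chi_mul hPRD hCUT A w f z hz4 (gF t) (gF_facts hCUT ht).1.contDiffAt,
    LL_congr A w f (gF_near hz), LL_comp hPRD A w f _ lu z hF2.contDiffAt (lu_cat hNSQ z hz)]
  have h2 : 0 ≤ LL A w f lu z :=
    LL_nonneg A w hG f lu z fun v => ((hNSQ n).2.2.2.2.1 z v hz).1
  have h3 : 0 ≤ GE A w f lu z := GE_nonneg A w hG f lu z
  have h4 : 0 ≤ deriv (fun s : ℝ => 1 * (max (s / t + 1) 0) ^ 3) (lu z) := by rw [hF']; positivity
  have h5 : 0 ≤ deriv (deriv (fun s : ℝ => 1 * (max (s / t + 1) 0) ^ 3)) (lu z) := by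
    rw [hF'']
    have : 0 ≤ max (lu z / t + 1) 0 := le_max_right _ _
    positivity
  exact add_nonneg (mul_nonneg h4 h2) (mul_nonneg h5 h3)

theorem gF_diff (hPRD : T_PRD) (hNSQ : T_NSQ) (hCUT : T_CUT) (hPWB : T_PWB) (hOAO : T_OAO)
    [T2Space X] {A : Atl n X ι} {w : ι → V n → ℝ} {f : V n → X} {I : Set (V n)} (hG : Gau A w)
    (hS : Sing A f I) : ∃ C : ℝ, 0 ≤ C ∧ ∀ t : ℝ, 1 ≤ t →
      ∫⁻ z in (Dp n \ I) \ {z : V n | nsq z ≤ 1 / 4},
        ENNReal.ofReal |LL A w f (fun z : V n => chi z * gF t z) z - LL A w f chi z| ≤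
        ENNReal.ofReal (C / t) := by
  have hDpm : MeasurableSet (Dp n \ I) := hS.opn.measurableSet
  have hQm : MeasurableSet {z : V n | nsq z ≤ 1 / 4} :=
    measurableSet_le nsqc.measurable measurable_const
  have hchi2 : ∀ z : V n, ContDiffAt ℝ 2 (chi (n := n)) z := fun z =>
    ((hCUT n).1.of_le le2).contDiffAt
  set Bq : Set (V n) := (Dp n \ I) \ {z : V n | nsq z ≤ 1 / 4} with hBq
  have hBm : MeasurableSet Bq := hDpm.diff hQm
  have hφj : ∀ j : ℕ, ContDiffOn ℝ 2 (fun z : V n => chi z * lu z ^ j) (Dp n) := by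
    intro j z hz
    exact ((hchi2 z).mul ((lu_cat hNSQ z hz.1).pow j)).contDiffWithinAt
  have hCj : ∀ j : ℕ, ∃ C : ℝ, 0 ≤ C ∧ ∀ z ∈ Kc n \ I,
      |LL A w f (fun z : V n => chi z * lu z ^ j) z|
        ≤ C * ∑ a, (Cb A f a (3 / 2)).indicator (Dm (FF A f a)) z := by
    intro j
    obtain ⟨C0, hC0⟩ := hPWB n X ι A w f I hG hS _ (Kc n) (hφj j) Kc_sub (Kc_compact hNSQ)
    refine ⟨max C0 0, le_max_right _ _, fun z hz => ?_⟩
    refine (hC0 z hz).1.trans ?_
    exact mul_le_mul_of_nonneg_right (le_max_left _ _) (Dm_sum_nonneg A f _ z)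
  obtain ⟨C1, hC1, hb1⟩ := hCj 1
  obtain ⟨C2, hC2, hb2⟩ := hCj 2
  obtain ⟨C3, hC3, hb3⟩ := hCj 3
  obtain ⟨M, hM, hmass⟩ := mass hOAO A f I hS (Kc n) Kc_sub (Kc_compact hNSQ)
  set C := 3 * C1 + 3 * C2 + C3 with hC
  have hCnn : 0 ≤ C := by positivity
  refine ⟨C * M, by positivity, ?_⟩
  intro t ht
  have ht0 : 0 < t := by linarith
  have hexp : ∀ z ∈ Bq, LL A w f (fun z : V n => chi z * gF t z) z
      = LL A w f chi z + (3 / t * LL A w f (fun z : V n => chi z * lu z ^ 1) z
        + (3 / t ^ 2 * LL A w f (fun z : V n => chi z * lu z ^ 2) z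
          + 1 / t ^ 3 * LL A w f (fun z : V n => chi z * lu z ^ 3) z)) := by
    intro z hz
    have hz2 : 1 / 4 < nsq z := not_le.mp hz.2
    have hzD : 0 < nsq z := by linarith
    have h1 : (fun z : V n => chi z * gF t z) =ᶠ[𝓝 z] fun x => chi x
        + (3 / t * (chi x * lu x ^ 1) + (3 / t ^ 2 * (chi x * lu x ^ 2)
          + 1 / t ^ 3 * (chi x * lu x ^ 3))) := by
      filter_upwards [continuousAt_const.eventually_lt nsqc.continuousAt hz2] with x hx
      have h2 := log_quarter x hx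
      have h3 : 0 ≤ lu x / t + 1 := by
        have : -1 ≤ lu x / t := by rw [le_div_iff₀ ht0]; linarith
        linarith
      unfold gF
      rw [if_neg (by linarith), max_eq_left h3]
      field_simp
      ring
    have hd : ∀ j : ℕ, ContDiffAt ℝ 2 (fun z : V n => chi z * lu z ^ j) z := fun j =>
      (hchi2 z).mul ((lu_cat hNSQ z hzD).pow j)
    rw [LL_congr A w f h1, LL_add A w f (hchi2 z)
      ((contDiffAt_const.mul (hd 1)).add ((contDiffAt_const.mul (hd 2)).add
        (contDiffAt_const.mul (hd 3)))),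
      LL_add A w f (contDiffAt_const.mul (hd 1)) ((contDiffAt_const.mul (hd 2)).add
        (contDiffAt_const.mul (hd 3))),
      LL_add A w f (contDiffAt_const.mul (hd 2)) (contDiffAt_const.mul (hd 3)),
      LL_cmul hPRD A w f _ (hd 1), LL_cmul hPRD A w f _ (hd 2), LL_cmul hPRD A w f _ (hd 3)]
  have hjz : ∀ j : ℕ, ∀ z : V n, 1 / 2 < nsq z →
      LL A w f (fun z : V n => chi z * lu z ^ j) z = 0 := by
    intro j z hz
    have : (fun z : V n => chi z * lu z ^ j) =ᶠ[𝓝 z] fun _ => 0 := by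
      filter_upwards [chi_zero_near hCUT z hz] with x hx
      rw [hx, zero_mul]
    rw [LL_congr A w f this, LL_const]
  set u : V n → ℝ := Bq.indicator (fun z => LL A w f (fun z : V n => chi z * gF t z) z
    - LL A w f chi z) with hu
  have hmass2 := hmass u (C / t) (by positivity) ?_ ?_
  · have h2 : C / t * M = C * M / t := by ring
    rw [h2] at hmass2
    refine le_trans ?_ hmass2
    calc ∫⁻ z in Bq, ENNReal.ofReal |LL A w f (fun z : V n => chi z * gF t z) z
          - LL A w f chi z| = ∫⁻ z in Bq, ENNReal.ofReal |u z| := by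
          refine setLIntegral_congr_fun hBm fun z hz => ?_
          simp only [hu, Set.indicator_of_mem hz]
      _ ≤ _ := lintegral_mono_set Set.sdiff_subset
  · intro z hz
    have hS0 := Dm_sum_nonneg A f (3 / 2) z
    by_cases hzB : z ∈ Bq
    · simp only [hu, Set.indicator_of_mem hzB]
      rw [hexp z hzB]
      have b1 := hb1 z hz
      have b2 := hb2 z hz
      have b3 := hb3 z hz
      set S := ∑ a, (Cb A f a (3 / 2)).indicator (Dm (FF A f a)) z with hSdef
      set x1 := LL A w f (fun z : V n => chi z * lu z ^ 1) z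
      set x2 := LL A w f (fun z : V n => chi z * lu z ^ 2) z
      set x3 := LL A w f (fun z : V n => chi z * lu z ^ 3) z
      have e0 : LL A w f chi z + (3 / t * x1 + (3 / t ^ 2 * x2 + 1 / t ^ 3 * x3))
          - LL A w f chi z = 3 / t * x1 + 3 / t ^ 2 * x2 + 1 / t ^ 3 * x3 := by ring
      rw [e0]
      have q2 : 3 / t ^ 2 ≤ 3 / t := by
        apply div_le_div_of_nonneg_left (by norm_num) ht0
        nlinarith
      have q3 : 1 / t ^ 3 ≤ 1 / t := by
        apply div_le_div_of_nonneg_left (by norm_num) ht0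
        nlinarith [pow_le_pow_left₀ zero_le_one ht 2]
      calc |3 / t * x1 + 3 / t ^ 2 * x2 + 1 / t ^ 3 * x3|
          ≤ |3 / t * x1| + |3 / t ^ 2 * x2| + |1 / t ^ 3 * x3| := abs_add_three _ _ _
        _ = 3 / t * |x1| + 3 / t ^ 2 * |x2| + 1 / t ^ 3 * |x3| := by
            rw [abs_mul, abs_mul, abs_mul, abs_of_pos (by positivity : 0 < 3 / t),
              abs_of_pos (by positivity : 0 < 3 / t ^ 2),
              abs_of_pos (by positivity : 0 < 1 / t ^ 3)]
        _ ≤ 3 / t * (C1 * S) + 3 / t * (C2 * S) + 1 / t * (C3 * S) := by gcongr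
        _ = C / t * S := by rw [hC]; ring
    · simp only [hu, Set.indicator_of_notMem hzB, abs_zero]
      positivity
  · intro z hz hzK
    by_cases hzB : z ∈ Bq
    · simp only [hu, Set.indicator_of_mem hzB]
      have hz2 : 1 / 4 < nsq z := not_le.mp hzB.2
      have hz3 : 1 / 2 < nsq z := by
        by_contra h3
        exact hzK ⟨hz2.le, not_lt.mp h3⟩
      rw [hexp z hzB, hjz 1 z hz3, hjz 2 z hz3, hjz 3 z hz3]
      ring
    · simp only [hu, Set.indicator_of_notMem hzB]

/-! ### functions of `η` -/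

theorem end_facts {θ : ℝ → ℝ} {α β B : ℝ} (hθ : ContDiff ℝ ∞ θ) (h1 : ∀ s ≤ -B, θ s = α)
    (h2 : ∀ s, B ≤ s → θ s = β) :
    (∀ s, s ∉ Icc (-B) B → deriv θ s = 0 ∧ deriv (deriv θ) s = 0) ∧
    ∃ C : ℝ, 0 ≤ C ∧ ∀ s, |θ s| ≤ C ∧ |deriv θ s| ≤ C ∧ |deriv (deriv θ) s| ≤ C := by
  have hθ1 : ContDiff ℝ ∞ (deriv θ) := (contDiff_infty_iff_deriv.1 hθ).2
  have hθ2 : ContDiff ℝ ∞ (deriv (deriv θ)) := (contDiff_infty_iff_deriv.1 hθ1).2
  have hz : ∀ s, s ∉ Icc (-B) B → deriv θ s = 0 := by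
    intro s hs
    have h3 : s < -B ∨ B < s := by
      by_contra hcon
      push Not at hcon
      exact hs ⟨hcon.1, hcon.2⟩
    rcases h3 with h3 | h3
    · have : θ =ᶠ[𝓝 s] fun _ => α := by
        filter_upwards [Iio_mem_nhds h3] with x hx using h1 x (le_of_lt hx)
      rw [this.deriv_eq, deriv_const]
    · have : θ =ᶠ[𝓝 s] fun _ => β := by
        filter_upwards [Ioi_mem_nhds h3] with x hx using h2 x (le_of_lt hx)
      rw [this.deriv_eq, deriv_const]
  have hz2 : ∀ s, s ∉ Icc (-B) B → deriv (deriv θ) s = 0 := by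
    intro s hs
    have : deriv θ =ᶠ[𝓝 s] fun _ => 0 := by
      filter_upwards [isClosed_Icc.isOpen_compl.mem_nhds hs] with x hx using hz x hx
    rw [this.deriv_eq, deriv_const]
  refine ⟨fun s hs => ⟨hz s hs, hz2 s hs⟩, ?_⟩
  obtain ⟨C0, hC0⟩ := (isCompact_Icc (a := -B) (b := B)).exists_bound_of_continuousOn
    hθ.continuous.continuousOn
  obtain ⟨C1, hC1⟩ := (isCompact_Icc (a := -B) (b := B)).exists_bound_of_continuousOn
    hθ1.continuous.continuousOn
  obtain ⟨C2, hC2⟩ := (isCompact_Icc (a := -B) (b := B)).exists_bound_of_continuousOn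
    hθ2.continuous.continuousOn
  refine ⟨|α| + |β| + |C0| + |C1| + |C2|, by positivity, fun s => ?_⟩
  have a1 := abs_nonneg α
  have a2 := abs_nonneg β
  have a3 := abs_nonneg C0
  have a4 := abs_nonneg C1
  have a5 := abs_nonneg C2
  by_cases hs : s ∈ Icc (-B) B
  · have b0 := hC0 s hs
    have b1 := hC1 s hs
    have b2 := hC2 s hs
    rw [Real.norm_eq_abs] at b0 b1 b2
    have c0 := le_abs_self C0
    have c1 := le_abs_self C1
    have c2 := le_abs_self C2
    exact ⟨by linarith, by linarith, by linarith⟩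
  · rw [hz s hs, hz2 s hs, abs_zero]
    refine ⟨?_, by positivity, by positivity⟩
    have h3 : s < -B ∨ B < s := by
      by_contra hcon
      push Not at hcon
      exact hs ⟨hcon.1, hcon.2⟩
    rcases h3 with h3 | h3
    · rw [h1 s h3.le]; linarith
    · rw [h2 s h3.le]; linarith

/-- the density of the right side -/
noncomputable def UU (A : Atl n X ι) (w : ι → V n → ℝ) (f : V n → X) (h : ι → V n → ℝ)
    (η : V n → ℝ) (θ : ℝ → ℝ) (z : V n) : ℝ :=
  deriv θ (η z) * PB A f (k1 w h) z + deriv (deriv θ) (η z) * PB A f (k2 w h) z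

/-- a finite union of windows -/
theorem win_fin {A : Atl n X ι} {w : ι → V n → ℝ} {f : V n → X} {I : Set (V n)} {η : V n → ℝ}
    (hW : Win A w f I η) (B : ℝ) :
    ∫⁻ z in (Dp n \ I) ∩ {z | nsq z ≤ 1 / 2 ∧ η z ∈ Icc (-B) B}, ENNReal.ofReal (PB A f w z) < ⊤ := by
  obtain ⟨CW, hCW⟩ := hW
  obtain ⟨N, hN⟩ := exists_nat_ge (2 * B)
  refine lt_of_le_of_lt (lintegral_mono_set ?_) (Pool.Agent.H24.VG.win_many hCW (-B) N)
  rintro z ⟨hz, h1, h2, h3⟩
  exact ⟨hz, h1, h2, by linarith⟩

theorem int_U (hSMO : T_SMO) (hOAO : T_OAO) (hCUT : T_CUT) (hKBD : T_KBD) [T2Space X]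
    [CompactSpace X] {A : Atl n X ι}
    {w : ι → V n → ℝ} {f : V n → X} {I : Set (V n)} {h : ι → V n → ℝ} {η : V n → ℝ}
    (hG : Gau A w) (hS : Sing A f I) (hC : Clo A h) (hE : Eta A f I h η) (hW : Win A w f I η)
    {θ : ℝ → ℝ} {α β B : ℝ} (hθ : ContDiff ℝ ∞ θ) (h1 : ∀ s ≤ -B, θ s = α)
    (h2 : ∀ s, B ≤ s → θ s = β) :
    IntegrableOn (fun z => chi z * UU A w f h η θ z) (Dp n \ I) := by
  obtain ⟨hz, C, hC0, hCb⟩ := end_facts hθ h1 h2
  obtain ⟨hkc, hks, -, CK, hCK⟩ := hKBD n X ι A w h hG hC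
  have hθ1 : ContDiff ℝ ∞ (deriv θ) := (contDiff_infty_iff_deriv.1 hθ).2
  have hθ2 : ContDiff ℝ ∞ (deriv (deriv θ)) := (contDiff_infty_iff_deriv.1 hθ1).2
  have hb : ∀ z ∈ Dp n \ I, |PB A f (k1 w h) z| ≤ |CK| * PB A f w z ∧
      |PB A f (k2 w h) z| ≤ |CK| * PB A f w z := by
    intro z hz'
    obtain ⟨e1, e2⟩ := hCK f I hS z hz'
    have e3 := Pool.Agent.H24.VG.pb_nonneg A hG f z
    have e4 : CK * PB A f w z ≤ |CK| * PB A f w z :=
      mul_le_mul_of_nonneg_right (le_abs_self _) e3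
    exact ⟨e1.trans e4, e2.trans e4⟩
  have i1 := (Pool.Agent.H24.VG.int_win hSMO hOAO hCUT hS hE.cont (p := k1 w h)
    (fun a => (hkc a).1) (fun a y hy => hks a y (Or.inl hy)) (abs_nonneg CK)
    (fun z hz' => (hb z hz').1) hθ1.continuous (fun s => (hCb s).2.1) isClosed_Icc
    (fun s hs => by_contra fun hcon => hs (hz s hcon).1) (win_fin hW B)).1
  have i2 := (Pool.Agent.H24.VG.int_win hSMO hOAO hCUT hS hE.cont (p := k2 w h)
    (fun a => (hkc a).2) (fun a y hy => hks a y (Or.inr hy)) (abs_nonneg CK)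
    (fun z hz' => (hb z hz').2) hθ2.continuous (fun s => (hCb s).2.2) isClosed_Icc
    (fun s hs => by_contra fun hcon => hs (hz s hcon).2) (win_fin hW B)).1
  refine (i1.add i2).congr (Filter.Eventually.of_forall fun z => ?_)
  simp only [Pi.add_apply]
  unfold UU
  ring

theorem dct {μ : Measure (V n)} {F : V n → ℝ} (hF : Integrable F μ) {G : ℝ → V n → ℝ}
    (hGm : ∀ t, 1 ≤ t → Continuous (G t)) (hb : ∀ t, 1 ≤ t → ∀ᵐ z ∂μ, |G t z| ≤ 1)
    (hl : ∀ᵐ z ∂μ, Tendsto (fun t => G t z) atTop (𝓝 1)) :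
    Tendsto (fun t => ∫ z, G t z * F z ∂μ) atTop (𝓝 (∫ z, F z ∂μ)) := by
  refine tendsto_integral_filter_of_dominated_convergence (fun z => |F z|) ?_ ?_ hF.norm ?_
  · filter_upwards [eventually_ge_atTop 1] with t ht
    exact ((hGm t ht).aestronglyMeasurable).mul hF.aestronglyMeasurable
  · filter_upwards [eventually_ge_atTop 1] with t ht
    filter_upwards [hb t ht] with z hz
    rw [Real.norm_eq_abs, abs_mul]
    calc |G t z| * |F z| ≤ 1 * |F z| := mul_le_mul_of_nonneg_right hz (abs_nonneg _)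
      _ = |F z| := one_mul _
  · filter_upwards [hl] with z hz
    have := hz.mul_const (F z)
    rwa [one_mul] at this

/-- the product of a bounded function of `η` and an integrable function -/
theorem int_eta {D : Set (V n)} (hD : MeasurableSet D) {η : V n → ℝ} (hη : ContinuousOn η D)
    {θ : ℝ → ℝ} (hθ : Continuous θ) {C : ℝ} (hC : ∀ s, |θ s| ≤ C) {F : V n → ℝ}
    (hF : IntegrableOn F D) : IntegrableOn (fun z => θ (η z) * F z) D := by
  refine hF.bdd_mul (c := C) ?_ (Filter.Eventually.of_forall fun z => ?_)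
  · exact (hθ.comp_continuousOn hη).aestronglyMeasurable hD
  · rw [Real.norm_eq_abs]; exact hC _

theorem inn_nonneg (hPRD : T_PRD) (hNSQ : T_NSQ) (hCUT : T_CUT) (hPWB : T_PWB) (hOAO : T_OAO)
    (hSTA : T_STA) (hSMO : T_SMO) (hKBD : T_KBD) (hIDN : T_IDN) [T2Space X]
    [CompactSpace X] {A : Atl n X ι}
    {w : ι → V n → ℝ} {f : V n → X} {I : Set (V n)} {h : ι → V n → ℝ} {η : V n → ℝ}
    (hG : Gau A w) (hS : Sing A f I) (hC : Clo A h) (hE : Eta A f I h η) (hW : Win A w f I η)
    {θ : ℝ → ℝ} {α β B : ℝ} (hθ : ContDiff ℝ ∞ θ) (h1 : ∀ s ≤ -B, θ s = α)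
    (h2 : ∀ s, B ≤ s → θ s = β) (hθ0 : ∀ s, 0 ≤ θ s) :
    0 ≤ (∫ z in Dp n \ I, chi z * UU A w f h η θ z)
      - ∫ z in Dp n \ I, θ (η z) * LL A w f chi z := by
  have hD : MeasurableSet (Dp n \ I) := hS.opn.measurableSet
  have hQm : MeasurableSet {z : V n | nsq z ≤ 1 / 4} :=
    measurableSet_le nsqc.measurable measurable_const
  obtain ⟨-, Cθ, hCθ0, hCθ⟩ := end_facts hθ h1 h2
  have hLLc := LL_chi_int hCUT hSTA hG hS
  have iθ : IntegrableOn (fun z => θ (η z) * LL A w f chi z) (Dp n \ I) :=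
    int_eta hD hE.cont hθ.continuous (fun s => (hCθ s).1) hLLc
  obtain ⟨C, hC0, hdiff⟩ := gF_diff hPRD hNSQ hCUT hPWB hOAO hG hS
  have iU := int_U hSMO hOAO hCUT hKBD hG hS hC hE hW hθ h1 h2
  have hmain : ∀ t : ℝ, 1 ≤ t → (∫ z in Dp n \ I, θ (η z) * LL A w f chi z) - Cθ * (C / t) ≤
      ∫ z in Dp n \ I, gF t z * (chi z * UU A w f h η θ z) := by
    intro t ht
    obtain ⟨g1, g2, g3⟩ := gF_facts (n := n) hCUT ht
    have hφ : ContDiff ℝ 2 (fun z : V n => chi z * gF t z) := ((hCUT n).1.of_le le2).mul g1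
    obtain ⟨i1, -, e⟩ := hIDN n X ι A w f I h η hG hS hC hE θ _ (hθ.of_le le2) ⟨Cθ, hCθ⟩ hφ g2 g3
    have e2 : ∫ z in Dp n \ I, chi z * gF t z * (deriv θ (η z) * PB A f (k1 w h) z
          + deriv (deriv θ) (η z) * PB A f (k2 w h) z) =
        ∫ z in Dp n \ I, gF t z * (chi z * UU A w f h η θ z) := by
      congr 1
      funext z
      unfold UU
      ring
    rw [← e2, ← e]
    have hδ : IntegrableOn (fun z => θ (η z) * LL A w f (fun z => chi z * gF t z) z -
        θ (η z) * LL A w f chi z) (Dp n \ I) := i1.sub iθ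
    have e3 := integral_sub i1 iθ
    have e4 := integral_inter_add_sdiff hQm hδ
    have p1 : 0 ≤ ∫ z in (Dp n \ I) ∩ {z : V n | nsq z ≤ 1 / 4},
        (θ (η z) * LL A w f (fun z => chi z * gF t z) z - θ (η z) * LL A w f chi z) := by
      refine setIntegral_nonneg (hD.inter hQm) fun z hz => ?_
      rw [LL_chi hCUT A w f z hz.2, mul_zero, sub_zero]
      exact mul_nonneg (hθ0 _) (LL_gF_nonneg hPRD hNSQ hCUT hG f ht hz.1.1.1 hz.2)
    have p2 : ‖∫ z in (Dp n \ I) \ {z : V n | nsq z ≤ 1 / 4},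
        (θ (η z) * LL A w f (fun z => chi z * gF t z) z - θ (η z) * LL A w f chi z)‖ ≤
        Cθ * (C / t) := by
      refine (norm_integral_le_lintegral_norm _).trans ?_
      have p3 : ∫⁻ z in (Dp n \ I) \ {z : V n | nsq z ≤ 1 / 4},
          ENNReal.ofReal ‖θ (η z) * LL A w f (fun z => chi z * gF t z) z -
            θ (η z) * LL A w f chi z‖ ≤ ENNReal.ofReal (Cθ * (C / t)) := by
        calc _ ≤ ∫⁻ z in (Dp n \ I) \ {z : V n | nsq z ≤ 1 / 4}, ENNReal.ofReal Cθ *
              ENNReal.ofReal |LL A w f (fun z => chi z * gF t z) z - LL A w f chi z| := by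
              refine lintegral_mono fun z => ?_
              simp only
              rw [← ENNReal.ofReal_mul hCθ0, ← mul_sub, norm_mul, Real.norm_eq_abs,
                Real.norm_eq_abs]
              exact ENNReal.ofReal_le_ofReal (mul_le_mul_of_nonneg_right (hCθ _).1 (abs_nonneg _))
          _ = ENNReal.ofReal Cθ * ∫⁻ z in (Dp n \ I) \ {z : V n | nsq z ≤ 1 / 4},
              ENNReal.ofReal |LL A w f (fun z => chi z * gF t z) z - LL A w f chi z| :=
              lintegral_const_mul' _ _ ENNReal.ofReal_ne_top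
          _ ≤ ENNReal.ofReal Cθ * ENNReal.ofReal (C / t) := by gcongr; exact hdiff t ht
          _ = _ := (ENNReal.ofReal_mul hCθ0).symm
      have p4 := ENNReal.toReal_mono ENNReal.ofReal_ne_top p3
      have ht0 : 0 < t := by linarith
      rwa [ENNReal.toReal_ofReal (by positivity)] at p4
    have p5 := (abs_le.1 p2).1
    linarith
  have hl1 : Tendsto (fun t : ℝ => (∫ z in Dp n \ I, θ (η z) * LL A w f chi z) - Cθ * (C / t))
      atTop (𝓝 ((∫ z in Dp n \ I, θ (η z) * LL A w f chi z) - Cθ * 0)) := by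
    have h3 : Tendsto (fun t : ℝ => C / t) atTop (𝓝 0) := tendsto_const_nhds.div_atTop tendsto_id
    exact tendsto_const_nhds.sub (h3.const_mul Cθ)
  have hl2 : Tendsto (fun t : ℝ => ∫ z in Dp n \ I, gF t z * (chi z * UU A w f h η θ z)) atTop
      (𝓝 (∫ z in Dp n \ I, chi z * UU A w f h η θ z)) := by
    apply dct iU (fun t ht => (gF_facts (n := n) hCUT ht).1.continuous)
    · intro t ht
      filter_upwards [ae_restrict_mem hD] with z hz
      obtain ⟨a1, a2⟩ := gF_bound ht hz.1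
      rw [abs_of_nonneg a1]; exact a2
    · filter_upwards [ae_restrict_mem hD] with z hz
      exact gF_tendsto hz.1
  have h5 := le_of_tendsto_of_tendsto hl1 hl2 (by
    filter_upwards [eventually_ge_atTop 1] with t ht using hmain t ht)
  linarith

/-- `rho t` is locally constant away from a compact shell -/
theorem rho_supp (hCUT : T_CUT) {t : ℝ} (ht : 1 ≤ t) :
    HasCompactSupport (fderiv ℝ (rho (n := n) t)) ∧ tsupport (fderiv ℝ (rho (n := n) t)) ⊆ Dp n ∧
    ∀ z : V n, 1 / 4 < nsq z → rho t =ᶠ[𝓝 z] fun _ => 1 := by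
  obtain ⟨-, hr, -, -⟩ := (hCUT n).2.2.2.1 t ht
  obtain ⟨hK, hKD⟩ := Pool.Agent.H24.VG.shell_compact (n := n) (a := Real.exp (-(4 * t)))
    (b := Real.exp (-(2 * t))) (Real.exp_pos _) (by rw [Real.exp_lt_one_iff]; linarith)
  have hone : ∀ z : V n, Real.exp (-(2 * t)) < nsq z → rho t =ᶠ[𝓝 z] fun _ => 1 := by
    intro z hz
    filter_upwards [continuousAt_const.eventually_lt nsqc.continuousAt hz] with x hx
    have hx0 : 0 < nsq x := (Real.exp_pos _).trans hx
    refine (hr x).2.2.1 hx0 ?_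
    unfold lu
    have : -(2 * t) < Real.log (nsq x) := by
      rw [Real.lt_log_iff_exp_lt hx0]; exact hx
    linarith
  have hzero : ∀ z : V n, nsq z < Real.exp (-(4 * t)) → rho t =ᶠ[𝓝 z] fun _ => 0 := by
    intro z hz
    filter_upwards [nsqc.continuousAt.eventually_lt continuousAt_const hz] with x hx
    refine (hr x).2.2.2 ?_
    rcases (nsq_nonneg x).eq_or_lt with h0 | h0
    · exact Or.inr h0.symm
    · left
      unfold lu
      have : Real.log (nsq x) < -(4 * t) := by
        rw [Real.log_lt_iff_lt_exp h0]; exact hx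
      linarith
  have hsub : Function.support (fderiv ℝ (rho (n := n) t)) ⊆
      {z : V n | Real.exp (-(4 * t)) ≤ nsq z ∧ nsq z ≤ Real.exp (-(2 * t))} := by
    intro z hz
    rw [Function.mem_support] at hz
    constructor
    · by_contra hcon
      push Not at hcon
      apply hz
      rw [(hzero z hcon).fderiv_eq]
      simp
    · by_contra hcon
      push Not at hcon
      apply hz
      rw [(hone z hcon).fderiv_eq]
      simp
  have hts : tsupport (fderiv ℝ (rho (n := n) t)) ⊆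
      {z : V n | Real.exp (-(4 * t)) ≤ nsq z ∧ nsq z ≤ Real.exp (-(2 * t))} :=
    closure_minimal hsub hK.isClosed
  refine ⟨HasCompactSupport.of_support_subset_isCompact hK hsub, hts.trans hKD, ?_⟩
  intro z hz
  apply hone z
  refine lt_trans ?_ hz
  have h1 : Real.exp (-2) ≤ 1 / 4 := by
    have h2 : (4 : ℝ) ≤ Real.exp 2 := by
      have := Real.add_one_le_exp (1 : ℝ)
      have h3 : Real.exp 2 = Real.exp 1 * Real.exp 1 := by rw [← Real.exp_add]; norm_num
      nlinarith
    rw [Real.exp_neg, ← one_div]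
    exact one_div_le_one_div_of_le (by norm_num) h2
  rcases ht.eq_or_lt with h0 | h0
  · rw [← h0]
    rcases h1.eq_or_lt with h2 | h2
    · exfalso
      have h3 := Real.exp_one_gt_d9
      have h4 : Real.exp (-2) = 1 / (Real.exp 1 * Real.exp 1) := by
        rw [← Real.exp_add, Real.exp_neg, one_div]; norm_num
      rw [h4] at h2
      have h5 : Real.exp 1 * Real.exp 1 = 4 := by
        field_simp at h2
        linarith
      nlinarith
    · norm_num
      norm_num at h2
      exact h2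
  · have : Real.exp (-(2 * t)) < Real.exp (-2) := Real.exp_lt_exp.2 (by linarith)
    linarith

theorem q_lim (hCUT : T_CUT) (hOAO : T_OAO) (hBY1 : T_BY1) (hINV : T_INV) [T2Space X]
    [CompactSpace X] {A : Atl n X ι}
    {w : ι → V n → ℝ} {f : V n → X} {I : Set (V n)} {h : ι → V n → ℝ} {η : V n → ℝ}
    (hG : Gau A w) (hS : Sing A f I) (hC : Clo A h) (hE : Eta A f I h η) (hW : Win A w f I η)
    {θ : ℝ → ℝ} {B : ℝ} (hθ : ContDiff ℝ ∞ θ) (h1 : ∀ s ≤ -B, θ s = 0)
    (h2 : ∀ s, B ≤ s → θ s = 0) :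
    (∀ t : ℝ, 1 ≤ t → IntegrableOn (fun z => θ (η z) * LL A w f (rho t) z) (Dp n \ I)) ∧
    Tendsto (fun t : ℝ => ∫ z in Dp n \ I, θ (η z) * LL A w f (rho t) z) atTop (𝓝 0) := by
  obtain ⟨-, C, hC0, hCb⟩ := end_facts hθ h1 h2
  have hms : MeasurableSet (Dp n \ I) := hS.opn.measurableSet
  have hQm : MeasurableSet {z : V n | nsq z ≤ 1 / 4} :=
    measurableSet_le nsqc.measurable measurable_const
  have hOm : ∀ a, MeasurableSet (Oa A f I a) := fun a => (hOAO n X ι A f I hS a).1.measurableSet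
  have hOs : ∀ a, Oa A f I a ⊆ Dp n \ I := fun a z hz => hz.1
  have hcomp : ∀ a, HasCompactSupport (w a) := fun a =>
    HasCompactSupport.of_support_subset_isCompact (isCompact_closedBall (0 : V n) (3 / 2))
      (fun y hy => hG.supp a y hy)
  have hHex := fun a => Pool.Agent.H73.VG.smooth_ext (hC.smooth a)
  choose H hHs hHc hHe using hHex
  -- local agreement
  have hloc : ∀ a, ∀ y ∈ Metric.closedBall (0 : V n) (3 / 2), H a =ᶠ[𝓝 y] h a := by
    intro a y hy
    have : Metric.ball (0 : V n) (7 / 4) ∈ 𝓝 y :=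
      Metric.isOpen_ball.mem_nhds (Metric.closedBall_subset_ball (by norm_num) hy)
    filter_upwards [this] with y' hy'
    exact hHe a y' hy'
  have hwz : ∀ a, ∀ y ∉ Metric.closedBall (0 : V n) (3 / 2), w a =ᶠ[𝓝 y] fun _ => 0 := by
    intro a y hy
    filter_upwards [Metric.isClosed_closedBall.isOpen_compl.mem_nhds hy] with y' hy'
    by_contra hne
    exact hy' (hG.supp a y' hne)
  let σ : ι → V n → ℝ := fun a z => η z - h a (FF A f a z)
  let q : ι → V n → ℝ → ℝ := fun a y s => θ (H a y + s) * w a y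
  have hqb := fun a => Pool.Agent.H73.VG.q_bound (hθ.of_le le2) C hCb (hHs a) (hHc a)
    (hG.smooth a) (hcomp a)
  have by1 := fun (t : ℝ) (ht : 1 ≤ t) (a : ι) (k : Fin n) => hBY1 n X ι A f I hS a k (rho t)
    (q a) (σ a) (3 / 2) (by norm_num) (((hCUT n).2.2.2.1 t ht).1.of_le le2) (rho_supp hCUT ht).1
    (rho_supp hCUT ht).2.1 (hE.loc a) (fun s => ((hqb a).1 s).of_le (by norm_num))
    (fun y s hy => hG.supp a y (right_ne_zero_of_mul hy))
    (by
      obtain ⟨B', hB'⟩ := (hqb a).2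
      exact ⟨B', fun y s => ⟨(hB' y s).1, (hB' y s).2.1⟩⟩)
  -- values of `q`
  have hq : ∀ a, ∀ z, q a (FF A f a z) (σ a z) = θ (η z) * w a (FF A f a z) := by
    intro a z
    by_cases hy : FF A f a z ∈ Metric.closedBall (0 : V n) (3 / 2)
    · change θ (H a (FF A f a z) + (η z - h a (FF A f a z))) * w a (FF A f a z) = _
      rw [(hloc a _ hy).eq_of_nhds, add_sub_cancel]
    · have h0 : w a (FF A f a z) = 0 := (hwz a _ hy).eq_of_nhds
      change θ (H a (FF A f a z) + (η z - h a (FF A f a z))) * w a (FF A f a z) = _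
      rw [h0, mul_zero, mul_zero]
  have hLL : ∀ t : ℝ, ∀ z ∈ Dp n \ I, θ (η z) * LL A w f (rho t) z =
      ∑ a, ∑ k, (Oa A f I a).indicator
        (fun z => q a (FF A f a z) (σ a z) * lev (rho t) z (cf (FF A f a) k z)) z := by
    intro t z hz
    unfold LL
    rw [Finset.mul_sum]
    refine Finset.sum_congr rfl (fun a _ => ?_)
    rw [← mul_assoc, Finset.mul_sum]
    refine Finset.sum_congr rfl (fun k _ => ?_)
    by_cases hO : z ∈ Oa A f I a
    · rw [indicator_of_mem hO, Wt, indicator_of_mem hO.2.1, hq]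
      rfl
    · rw [indicator_of_notMem hO]
      by_cases hs : f z ∈ (A.φ a).source
      · have : w a (A.φ a (f z)) = 0 := by
          by_contra hne
          apply hO
          refine ⟨hz, hs, ?_⟩
          have := hG.supp a _ hne
          exact Metric.closedBall_subset_ball (by norm_num) this
        rw [Wt, indicator_of_mem hs, this, mul_zero, zero_mul]
      · rw [Wt, indicator_of_notMem hs, mul_zero, zero_mul]
  have hint : ∀ t, 1 ≤ t → ∀ a k, Integrable ((Oa A f I a).indicator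
      (fun z => q a (FF A f a z) (σ a z) * lev (rho t) z (cf (FF A f a) k z))) := fun t ht a k =>
    (integrable_indicator_iff (hOm a)).2 (by1 t ht a k).1
  have hI1 : ∀ t : ℝ, 1 ≤ t → IntegrableOn (fun z => ∑ a, ∑ k, (Oa A f I a).indicator
      (fun z => q a (FF A f a z) (σ a z) * lev (rho t) z (cf (FF A f a) k z)) z) (Dp n \ I) :=
    fun t ht => (integrable_finsetSum _ (fun a _ => integrable_finsetSum _
      (fun k _ => hint t ht a k))).integrableOn
  refine ⟨fun t ht => (hI1 t ht).congr_fun (fun z hz => (hLL t z hz).symm) hms, ?_⟩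
  -- the remainders
  set R : ι → Fin n → ℝ → V n → ℝ := fun a k t z =>
    (dr (rho t) z (cf (FF A f a) k z) * conj ((jac (FF A f a) z).det *
      dr (fun y => q a y (σ a z)) (FF A f a z) (ek k))).re with hR
  have hval : ∀ t : ℝ, 1 ≤ t → ∫ z in Dp n \ I, θ (η z) * LL A w f (rho t) z =
      ∑ a, ∑ k, -∫ z in Oa A f I a, R a k t z := by
    intro t ht
    rw [setIntegral_congr_fun hms (hLL t)]
    rw [integral_finsetSum _ (fun a _ => (integrable_finsetSum _
      (fun k _ => hint t ht a k)).integrableOn)]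
    refine Finset.sum_congr rfl (fun a _ => ?_)
    rw [integral_finsetSum _ (fun k _ => (hint t ht a k).integrableOn)]
    refine Finset.sum_congr rfl (fun k _ => ?_)
    rw [← (by1 t ht a k).2.2, setIntegral_indicator (hOm a),
      inter_eq_self_of_subset_right (hOs a)]
  -- the set
  set S : Set (V n) := {z | z ∈ Dp n \ I ∧ η z ∈ Icc (-B) B} with hSdef
  have hSm : MeasurableSet S := by
    obtain ⟨U, hU, hUe⟩ := continuousOn_iff_isClosed.1 hE.cont (Icc (-B) B) isClosed_Icc
    have : S = η ⁻¹' Icc (-B) B ∩ (Dp n \ I) := by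
      ext z; simp only [hSdef, mem_inter_iff, mem_ofPred_eq, mem_preimage]; tauto
    rw [this, hUe]
    exact hU.measurableSet.inter hms
  have hSfin : ∫⁻ z in (Dp n \ I) ∩ S ∩ {z | nsq z ≤ 1 / 4}, ENNReal.ofReal (PB A f w z) < ⊤ := by
    refine lt_of_le_of_lt (lintegral_mono_set ?_) (win_fin hW B)
    rintro z ⟨⟨h3, h4⟩, h5⟩
    have h5' : nsq z ≤ 1 / 4 := h5
    exact ⟨h3, by linarith, h4.2⟩
  have hinv := hINV n X ι A w f I hG hS S hSm hSfin
  have hlim : ∀ a k, Tendsto (fun t : ℝ => ∫ z in Oa A f I a, R a k t z) atTop (𝓝 0) := by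
    intro a k
    obtain ⟨B', hB'⟩ := (hqb a).2
    have hB'0 : 0 ≤ B' := (abs_nonneg _).trans (hB' 0 0).1
    set J : ℝ → ℝ≥0∞ := fun t => ∫⁻ z in (Dp n \ I) ∩ Cb A f a 2 ∩ S ∩ {z | nsq z ≤ 1 / 4},
      ENNReal.ofReal (‖(jac (FF A f a) z).det‖ * ‖dr (rho t) z (cf (FF A f a) k z)‖) with hJ
    have hJlim : Tendsto J atTop (𝓝 0) := hinv a k
    have hEm : MeasurableSet ((Dp n \ I) ∩ Cb A f a 2 ∩ S ∩ {z | nsq z ≤ 1 / 4}) :=
      ((Pool.Agent.H15.VG.measurableSet_Cb hOAO hS a le_rfl).inter hSm).inter hQm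
    have hb : ∀ t : ℝ, 1 ≤ t → ∫⁻ z in Oa A f I a, ENNReal.ofReal ‖R a k t z‖ ≤
        ENNReal.ofReal B' * J t := by
      intro t ht
      calc ∫⁻ z in Oa A f I a, ENNReal.ofReal ‖R a k t z‖
          ≤ ∫⁻ z in Oa A f I a, ((Dp n \ I) ∩ Cb A f a 2 ∩ S ∩ {z | nsq z ≤ 1 / 4}).indicator
            (fun z => ENNReal.ofReal B' * ENNReal.ofReal (‖(jac (FF A f a) z).det‖ *
              ‖dr (rho t) z (cf (FF A f a) k z)‖)) z := by
            refine setLIntegral_mono' (hOm a) fun z hz => ?_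
            by_cases hzE : z ∈ (Dp n \ I) ∩ Cb A f a 2 ∩ S ∩ {z | nsq z ≤ 1 / 4}
            · rw [indicator_of_mem hzE, ← ENNReal.ofReal_mul hB'0]
              apply ENNReal.ofReal_le_ofReal
              rw [Real.norm_eq_abs]
              refine (Complex.abs_re_le_norm _).trans ?_
              rw [norm_mul, RCLike.norm_conj, norm_mul]
              have h3 : ‖dr (fun y => q a y (σ a z)) (FF A f a z) (ek k)‖ ≤ B' := by
                refine (Pool.Agent.H33.VG.norm_dr_le _ _ _).trans ?_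
                rw [Pool.Agent.H33.VG.norm_ek, mul_one]
                exact (hB' _ _).2.1
              calc ‖dr (rho t) z (cf (FF A f a) k z)‖ * (‖(jac (FF A f a) z).det‖ *
                    ‖dr (fun y => q a y (σ a z)) (FF A f a z) (ek k)‖) ≤
                    ‖dr (rho t) z (cf (FF A f a) k z)‖ * (‖(jac (FF A f a) z).det‖ * B') := by
                    gcongr
                _ = _ := by ring
            · rw [indicator_of_notMem hzE]
              have hR0 : R a k t z = 0 := by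
                by_cases hzQ : nsq z ≤ 1 / 4
                · -- outside the window
                  have hzD : z ∈ Dp n \ I := hOs a hz
                  have hzC : z ∈ Cb A f a 2 :=
                    ((hOAO n X ι A f I hS a).2.2.2.2.1 hz).2
                  have hη : η z ∉ Icc (-B) B := fun h3 => hzE ⟨⟨⟨hzD, hzC⟩, hzD, h3⟩, hzQ⟩
                  have hdq : dr (fun y => q a y (σ a z)) (FF A f a z) (ek k) = 0 := by
                    have he : (fun y => q a y (σ a z)) =ᶠ[𝓝 (FF A f a z)] fun _ => 0 := by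
                      by_cases hy : FF A f a z ∈ Metric.closedBall (0 : V n) (3 / 2)
                      · have hHη : H a (FF A f a z) + σ a z = η z := by
                          change H a (FF A f a z) + (η z - h a (FF A f a z)) = η z
                          rw [(hloc a _ hy).eq_of_nhds]
                          ring
                        have hc : ContinuousAt (fun y => H a y + σ a z) (FF A f a z) :=
                          ((hHs a).continuous.continuousAt).add continuousAt_const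
                        have hmem : (Icc (-B) B)ᶜ ∈ 𝓝 (H a (FF A f a z) + σ a z) := by
                          rw [hHη]
                          exact isClosed_Icc.isOpen_compl.mem_nhds hη
                        have hev : ∀ᶠ y in 𝓝 (FF A f a z), H a y + σ a z ∈ (Icc (-B) B)ᶜ :=
                          hc.preimage_mem_nhds hmem
                        filter_upwards [hev] with y hy'
                        change θ (H a y + σ a z) * w a y = 0
                        have h3 : H a y + σ a z < -B ∨ B < H a y + σ a z := by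
                          by_contra hcon
                          push Not at hcon
                          exact hy' ⟨hcon.1, hcon.2⟩
                        rcases h3 with h3 | h3
                        · rw [h1 _ h3.le, zero_mul]
                        · rw [h2 _ h3.le, zero_mul]
                      · filter_upwards [hwz a _ hy] with y hy'
                        change θ (H a y + σ a z) * w a y = 0
                        rw [hy', mul_zero]
                    rw [Pool.Agent.H73.VG.dr_congr he, Pool.Agent.H73.VG.dr_zero']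
                  simp only [hR]
                  rw [hdq]
                  simp
                · push Not at hzQ
                  have he := (rho_supp (n := n) hCUT ht).2.2 z hzQ
                  simp only [hR]
                  rw [Pool.Agent.H73.VG.dr_congr he, dr_const]
                  simp
              rw [hR0]
              simp
        _ ≤ ∫⁻ z, ((Dp n \ I) ∩ Cb A f a 2 ∩ S ∩ {z | nsq z ≤ 1 / 4}).indicator
            (fun z => ENNReal.ofReal B' * ENNReal.ofReal (‖(jac (FF A f a) z).det‖ *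
              ‖dr (rho t) z (cf (FF A f a) k z)‖)) z := setLIntegral_le_lintegral _ _
        _ = ENNReal.ofReal B' * J t := by
            rw [lintegral_indicator hEm, lintegral_const_mul' _ _ ENNReal.ofReal_ne_top]
    have hKlim : Tendsto (fun t => ENNReal.ofReal B' * J t) atTop (𝓝 0) := by
      have := ENNReal.Tendsto.const_mul (a := ENNReal.ofReal B') hJlim
        (Or.inr ENNReal.ofReal_ne_top)
      rwa [mul_zero] at this
    have hKr : Tendsto (fun t => (ENNReal.ofReal B' * J t).toReal) atTop (𝓝 0) := by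
      have h3 := (ENNReal.tendsto_toReal ENNReal.zero_ne_top).comp hKlim
      rw [ENNReal.toReal_zero] at h3
      exact h3
    refine squeeze_zero_norm' ?_ hKr
    filter_upwards [eventually_ge_atTop 1, hKlim.eventually_lt_const (ENNReal.zero_lt_top)]
      with t ht hfin
    refine (norm_integral_le_lintegral_norm _).trans ?_
    exact ENNReal.toReal_mono hfin.ne (hb t ht)
  have hfinal : Tendsto (fun t : ℝ => ∑ a, ∑ k, -∫ z in Oa A f I a, R a k t z) atTop (𝓝 0) := by
    have := tendsto_finsetSum (Finset.univ : Finset ι) (fun a _ =>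
      tendsto_finsetSum (Finset.univ : Finset (Fin n)) (fun k _ => (hlim a k).neg))
    simpa using this
  refine hfinal.congr' ?_
  filter_upwards [eventually_ge_atTop 1] with t ht using (hval t ht).symm

theorem rho_cont (hCUT : T_CUT) {t : ℝ} (ht : 1 ≤ t) : Continuous (rho (n := n) t) :=
  ((hCUT n).2.2.2.1 t ht).1.continuous

theorem inn_zero (hPRD : T_PRD) (hCUT : T_CUT) (hOAO : T_OAO)
    (hSTA : T_STA) (hSMO : T_SMO) (hKBD : T_KBD) (hIDN : T_IDN) (hBY1 : T_BY1) (hINV : T_INV)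
    [T2Space X] [CompactSpace X] {A : Atl n X ι}
    {w : ι → V n → ℝ} {f : V n → X} {I : Set (V n)} {h : ι → V n → ℝ} {η : V n → ℝ}
    (hG : Gau A w) (hS : Sing A f I) (hC : Clo A h) (hE : Eta A f I h η) (hW : Win A w f I η)
    {θ : ℝ → ℝ} {B : ℝ} (hθ : ContDiff ℝ ∞ θ) (h1 : ∀ s ≤ -B, θ s = 0)
    (h2 : ∀ s, B ≤ s → θ s = 0) :
    (∫ z in Dp n \ I, chi z * UU A w f h η θ z)
      - ∫ z in Dp n \ I, θ (η z) * LL A w f chi z = 0 := by
  have hD : MeasurableSet (Dp n \ I) := hS.opn.measurableSet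
  obtain ⟨-, Cθ, hCθ0, hCθ⟩ := end_facts hθ h1 h2
  have hLLc := LL_chi_int hCUT hSTA hG hS
  have iθ : IntegrableOn (fun z => θ (η z) * LL A w f chi z) (Dp n \ I) :=
    int_eta hD hE.cont hθ.continuous (fun s => (hCθ s).1) hLLc
  have iU := int_U hSMO hOAO hCUT hKBD hG hS hC hE hW hθ h1 h2
  obtain ⟨-, hq⟩ := q_lim hCUT hOAO hBY1 hINV hG hS hC hE hW hθ h1 h2
  have hval : ∀ t : ℝ, 1 ≤ t → ∫ z in Dp n \ I, θ (η z) * LL A w f (rho t) z =
      (∫ z in Dp n \ I, rho t z * (chi z * UU A w f h η θ z)) -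
        ∫ z in Dp n \ I, θ (η z) * LL A w f chi z := by
    intro t ht
    obtain ⟨hrho, hrho2, hcs, hts⟩ := (hCUT n).2.2.2.1 t ht
    have hφ : ContDiff ℝ 2 (fun z : V n => chi z * rho t z) :=
      ((hCUT n).1.mul hrho).of_le le2
    obtain ⟨i1, -, e⟩ := hIDN n X ι A w f I h η hG hS hC hE θ _ (hθ.of_le le2) ⟨Cθ, hCθ⟩ hφ hcs hts
    have e2 : ∫ z in Dp n \ I, chi z * rho t z * (deriv θ (η z) * PB A f (k1 w h) z
          + deriv (deriv θ) (η z) * PB A f (k2 w h) z) =
        ∫ z in Dp n \ I, rho t z * (chi z * UU A w f h η θ z) := by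
      congr 1
      funext z
      unfold UU
      ring
    rw [← e2, ← e, ← integral_sub i1 iθ]
    refine setIntegral_congr_fun hD fun z hz => ?_
    rw [← mul_sub]
    congr 1
    by_cases hz4 : nsq z ≤ 1 / 4
    · rw [LL_chi_mul hPRD hCUT A w f z hz4 (rho t) (hrho.of_le le2).contDiffAt,
        LL_chi hCUT A w f z hz4, sub_zero]
    · push Not at hz4
      have hr := (rho_supp (n := n) hCUT ht).2.2 z hz4
      have hc : (fun z : V n => chi z * rho t z) =ᶠ[𝓝 z] chi := by
        filter_upwards [hr] with x hx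
        rw [hx, mul_one]
      rw [LL_congr A w f hr, LL_congr A w f hc, LL_const, sub_self]
  have hl : Tendsto (fun t : ℝ => (∫ z in Dp n \ I, rho t z * (chi z * UU A w f h η θ z)) -
        ∫ z in Dp n \ I, θ (η z) * LL A w f chi z) atTop
      (𝓝 ((∫ z in Dp n \ I, chi z * UU A w f h η θ z) -
        ∫ z in Dp n \ I, θ (η z) * LL A w f chi z)) := by
    refine Tendsto.sub_const ?_ _
    apply dct iU (fun t ht => rho_cont hCUT ht)
    · intro t ht
      filter_upwards with z
      obtain ⟨a1, a2, -⟩ := ((hCUT n).2.2.2.1 t ht).2.1 z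
      rw [abs_of_nonneg a1]; exact a2
    · filter_upwards [ae_restrict_mem hD] with z hz
      refine tendsto_const_nhds.congr' ?_
      filter_upwards [eventually_ge_atTop 1, eventually_ge_atTop (-lu z)] with t ht ht2
      exact ((((hCUT n).2.2.2.1 t ht).2.1 z).2.2.1 hz.1.1 (by linarith)).symm
  refine tendsto_nhds_unique (hl.congr' ?_) hq
  filter_upwards [eventually_ge_atTop 1] with t ht using (hval t ht).symm

/-- smooth functions which are constant near both ends -/
def Gd (θ : ℝ → ℝ) : Prop := ContDiff ℝ ∞ θ ∧ ∃ α β B : ℝ, (∀ s ≤ -B, θ s = α) ∧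
  ∀ s, B ≤ s → θ s = β

theorem Gd.lin {θ₁ θ₂ : ℝ → ℝ} (h₁ : Gd θ₁) (h₂ : Gd θ₂) (c : ℝ) :
    Gd (fun s => θ₁ s + c * θ₂ s) := by
  obtain ⟨s1, a1, b1, B1, p1, q1⟩ := h₁
  obtain ⟨s2, a2, b2, B2, p2, q2⟩ := h₂
  refine ⟨s1.add (contDiff_const.mul s2), a1 + c * a2, b1 + c * b2, max B1 B2, ?_, ?_⟩
  · intro s hs
    change θ₁ s + c * θ₂ s = _
    rw [p1 s (by have := le_max_left B1 B2; linarith),
      p2 s (by have := le_max_right B1 B2; linarith)]
  · intro s hs
    change θ₁ s + c * θ₂ s = _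
    rw [q1 s (by have := le_max_left B1 B2; linarith),
      q2 s (by have := le_max_right B1 B2; linarith)]

theorem Inn_lin (hCUT : T_CUT) (hOAO : T_OAO)
    (hSTA : T_STA) (hSMO : T_SMO) (hKBD : T_KBD)
    [T2Space X] [CompactSpace X] {A : Atl n X ι}
    {w : ι → V n → ℝ} {f : V n → X} {I : Set (V n)} {h : ι → V n → ℝ} {η : V n → ℝ}
    (hG : Gau A w) (hS : Sing A f I) (hC : Clo A h) (hE : Eta A f I h η) (hW : Win A w f I η)
    {θ₁ θ₂ : ℝ → ℝ} (h₁ : Gd θ₁) (h₂ : Gd θ₂) (c : ℝ) :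
    Inn A w f I h η (fun s => θ₁ s + c * θ₂ s) = Inn A w f I h η θ₁ + c * Inn A w f I h η θ₂ := by
  have hD : MeasurableSet (Dp n \ I) := hS.opn.measurableSet
  have hLLc := LL_chi_int hCUT hSTA hG hS
  obtain ⟨s1, a1, b1, B1, p1, q1⟩ := h₁
  obtain ⟨s2, a2, b2, B2, p2, q2⟩ := h₂
  obtain ⟨-, C1, -, hC1⟩ := end_facts s1 p1 q1
  obtain ⟨-, C2, -, hC2⟩ := end_facts s2 p2 q2
  have i1 := int_eta hD hE.cont s1.continuous (fun s => (hC1 s).1) hLLc
  have i2 := int_eta hD hE.cont s2.continuous (fun s => (hC2 s).1) hLLc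
  have u1 := int_U hSMO hOAO hCUT hKBD hG hS hC hE hW s1 p1 q1
  have u2 := int_U hSMO hOAO hCUT hKBD hG hS hC hE hW s2 p2 q2
  have hd1 : ∀ s, DifferentiableAt ℝ θ₁ s := fun s => (s1.differentiable (by simp)) s
  have hd2 : ∀ s, DifferentiableAt ℝ θ₂ s := fun s => (s2.differentiable (by simp)) s
  have s1' : ContDiff ℝ ∞ (deriv θ₁) := (contDiff_infty_iff_deriv.1 s1).2
  have s2' : ContDiff ℝ ∞ (deriv θ₂) := (contDiff_infty_iff_deriv.1 s2).2
  have hd1' : ∀ s, DifferentiableAt ℝ (deriv θ₁) s := fun s => (s1'.differentiable (by simp)) s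
  have hd2' : ∀ s, DifferentiableAt ℝ (deriv θ₂) s := fun s => (s2'.differentiable (by simp)) s
  have e1 : deriv (fun s => θ₁ s + c * θ₂ s) = fun s => deriv θ₁ s + c * deriv θ₂ s := by
    funext s
    rw [deriv_fun_add (hd1 s) ((hd2 s).const_mul c), deriv_const_mul _ (hd2 s)]
  have e2 : deriv (deriv (fun s => θ₁ s + c * θ₂ s)) =
      fun s => deriv (deriv θ₁) s + c * deriv (deriv θ₂) s := by
    rw [e1]
    funext s
    rw [deriv_fun_add (hd1' s) ((hd2' s).const_mul c), deriv_const_mul _ (hd2' s)]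
  have eU : ∀ z, chi z * UU A w f h η (fun s => θ₁ s + c * θ₂ s) z =
      chi z * UU A w f h η θ₁ z + c * (chi z * UU A w f h η θ₂ z) := by
    intro z
    unfold UU
    rw [e2, e1]
    ring
  have eI : ∀ θ : ℝ → ℝ, Inn A w f I h η θ = (∫ z in Dp n \ I, chi z * UU A w f h η θ z)
      - ∫ z in Dp n \ I, θ (η z) * LL A w f chi z := fun _ => rfl
  rw [eI, eI, eI]
  have f1 : ∫ z in Dp n \ I, chi z * UU A w f h η (fun s => θ₁ s + c * θ₂ s) z =
      (∫ z in Dp n \ I, chi z * UU A w f h η θ₁ z) +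
        c * ∫ z in Dp n \ I, chi z * UU A w f h η θ₂ z := by
    rw [← integral_const_mul, ← integral_add u1 (u2.const_mul c)]
    congr 1
    funext z
    exact eU z
  have f2 : ∫ z in Dp n \ I, (θ₁ (η z) + c * θ₂ (η z)) * LL A w f chi z =
      (∫ z in Dp n \ I, θ₁ (η z) * LL A w f chi z) +
        c * ∫ z in Dp n \ I, θ₂ (η z) * LL A w f chi z := by
    rw [← integral_const_mul, ← integral_add i1 (i2.const_mul c)]
    congr 1
    funext z
    ring
  rw [f1, f2]
  ring

/-- `T_INN` -/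
theorem inn (hPRD : T_PRD) (hNSQ : T_NSQ) (hCUT : T_CUT) (hPWB : T_PWB) (hOAO : T_OAO)
    (hSTA : T_STA) (hSMO : T_SMO) (hKBD : T_KBD) (hIDN : T_IDN) (hBY1 : T_BY1) (hINV : T_INV) :
    T_INN := by
  intro n X _ _ _ ι _ A w f I h η hG hS hC hE hW
  have eI : ∀ θ : ℝ → ℝ, Inn A w f I h η θ = (∫ z in Dp n \ I, chi z * UU A w f h η θ z)
      - ∫ z in Dp n \ I, θ (η z) * LL A w f chi z := fun _ => rfl
  set S0 : ℝ → ℝ := Pool.Agent.H24.VG.st with hS0
  set S1 : ℝ → ℝ := fun s => 1 + (-1) * Pool.Agent.H24.VG.st s with hS1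
  have gone : Gd (fun _ => (1 : ℝ)) :=
    ⟨contDiff_const, 1, 1, 0, fun _ _ => rfl, fun _ _ => rfl⟩
  have g0 : Gd S0 := ⟨Pool.Agent.H24.VG.st_cd, 0, 1, 1,
    fun s hs => Pool.Agent.H24.VG.st_zero (by linarith), fun s hs => Pool.Agent.H24.VG.st_one hs⟩
  have g1 : Gd S1 := gone.lin g0 (-1)
  have hpos : ∀ θ : ℝ → ℝ, Gd θ → (∀ s, 0 ≤ θ s) → 0 ≤ Inn A w f I h η θ := by
    rintro θ ⟨s1, a1, b1, B1, p1, q1⟩ hθ
    exact inn_nonneg hPRD hNSQ hCUT hPWB hOAO hSTA hSMO hKBD hIDN hG hS hC hE hW s1 p1 q1 hθ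
  have hlin : ∀ (θ₁ θ₂ : ℝ → ℝ), Gd θ₁ → Gd θ₂ → ∀ c : ℝ, Inn A w f I h η
      (fun s => θ₁ s + c * θ₂ s) = Inn A w f I h η θ₁ + c * Inn A w f I h η θ₂ :=
    fun θ₁ θ₂ h₁ h₂ c => Inn_lin hCUT hOAO hSTA hSMO hKBD hG hS hC hE hW h₁ h₂ c
  have hone : Inn A w f I h η (fun _ => (1 : ℝ)) = flux A w f I := by
    rw [eI]
    unfold flux UU
    simp
  refine ⟨Inn A w f I h η S0, Inn A w f I h η S1, hpos _ g0 (Pool.Agent.H24.VG.st_nonneg),
    hpos _ g1 (fun s => ?_), ?_, ?_⟩
  · have := Pool.Agent.H24.VG.st_le s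
    simp only [hS1]
    linarith
  · have h3 := hlin _ _ gone g0 (-1)
    rw [hone] at h3
    have h4 : Inn A w f I h η S1 = flux A w f I + -1 * Inn A w f I h η S0 := h3
    rw [h4]
    ring
  · intro θ α β B hθ h1 h2
    refine ⟨int_U hSMO hOAO hCUT hKBD hG hS hC hE hW hθ h1 h2, ?_⟩
    have gθ : Gd θ := ⟨hθ, α, β, B, h1, h2⟩
    have e1 := hlin _ _ gθ g0 (-β)
    have ga := gθ.lin g0 (-β)
    have e2 := hlin _ _ ga g1 (-α)
    have gb := ga.lin g1 (-α)
    have hz : Inn A w f I h η (fun s => θ s + -β * S0 s + -α * S1 s) = 0 := by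
      rw [eI]
      refine inn_zero hPRD hCUT hOAO hSTA hSMO hKBD hIDN hBY1 hINV hG hS hC hE hW
        (B := max B 1) gb.1 ?_ ?_
      · intro s hs
        have a1 := le_max_left B 1
        have a2 := le_max_right B 1
        simp only [hS0, hS1]
        rw [h1 s (by linarith), Pool.Agent.H24.VG.st_zero (by linarith)]
        ring
      · intro s hs
        have a1 := le_max_left B 1
        have a2 := le_max_right B 1
        simp only [hS0, hS1]
        rw [h2 s (by linarith), Pool.Agent.H24.VG.st_one (by linarith)]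
        ring
    rw [hz, e1] at e2
    linarith

end Pool.Agent.H33.VG.INN
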